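import Pool.Agent.Helper95.BK.Public
import Pool.Agent.BK.Bridge

/-!
The defect of the order of vanishing formula.
-/

open scoped Pointwise NumberField
open Polynomial IsDedekindDomain

namespace Pool.BK

section Fields

variable (L Ω : Type) [Field L] [NumberField L] [Field Ω] [Algebra L Ω]

/-- The order of vanishing formula at the prime `p` for the `m`-th power of the L-function of `V`
has the defect `D`: the Euler polynomials are rational and independent of `l`, the Euler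
product converges in a right half plane, its `m`-th power continues meromorphically to a
neighbourhood of the real half line `[0, ∞)`, the order at `0` is an integer `k`, the dimensions of
`H¹_f` and `H⁰` are finite with `dim H¹_f - dim H⁰ = d`, and `k - m d = D`. -/
def FormulaDefect (V : LSystem (Ω ≃ₐ[L] Ω)) {p : ℕ} [Fact p.Prime]
    (B : PeriodData (Ω ≃ₐ[L] Ω) (𝓞 Ω) p) (m : ℕ) (D : ℤ) : Prop :=
  ∃ P : HeightOneSpectrum (𝓞 L) → ℚ[X], EulerFamily L Ω V P ∧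
    ∃ (σ : ℝ) (U : Set ℂ) (Λ : ℂ → ℂ), IsOpen U ∧ {s : ℂ | σ < s.re} ⊆ U ∧
      (∀ t : ℝ, 0 ≤ t → (t : ℂ) ∈ U) ∧ MeromorphicOn Λ U ∧
      (∀ s : ℂ, σ < s.re → ∃ z : ℂ, z ≠ 0 ∧ HasProd (eulerFactor L P s) z ∧ Λ s = z ^ m) ∧
      ∃ k d : ℤ, meromorphicOrderAt Λ 0 = (k : WithTop ℤ) ∧ SelmerDiff (V.rep p) B d ∧
        k - m * d = D

/-- The same through the quotient spaces. -/
def BKdefect (V : LSystem (Ω ≃ₐ[L] Ω)) {p : ℕ} [Fact p.Prime]
    (B : PeriodData (Ω ≃ₐ[L] Ω) (𝓞 Ω) p) (m : ℕ) (D : ℤ) : Prop :=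
  ∃ P : HeightOneSpectrum (𝓞 L) → ℚ[X], IsEulerFamily L Ω V P ∧
    ∃ (σ : ℝ) (U : Set ℂ) (Λ : ℂ → ℂ), IsOpen U ∧ {s : ℂ | σ < s.re} ⊆ U ∧
      (∀ t : ℝ, 0 ≤ t → (t : ℂ) ∈ U) ∧ MeromorphicOn Λ U ∧
      (∀ s : ℂ, σ < s.re → ∃ z : ℂ, z ≠ 0 ∧ HasProd (eulerFactor L P s) z ∧ Λ s = z ^ m) ∧
      ∃ k : ℤ, meromorphicOrderAt Λ 0 = (k : WithTop ℤ) ∧
        Module.Finite ℚ_[p] (H1f (V.rep p) B) ∧
        k - m * ((Module.finrank ℚ_[p] (H1f (V.rep p) B) : ℤ) - (h0 (V.rep p) : ℤ)) = D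

theorem formulaDefect_iff [IsAlgClosed Ω] [Algebra.IsAlgebraic L Ω] (V : LSystem (Ω ≃ₐ[L] Ω))
    {p : ℕ} [Fact p.Prime]
    (B : PeriodData (Ω ≃ₐ[L] Ω) (𝓞 Ω) p) (m : ℕ) (D : ℤ) :
    FormulaDefect L Ω V B m D ↔ BKdefect L Ω V B m D := by
  unfold FormulaDefect BKdefect
  refine exists_congr fun P => and_congr (eulerFamily_iff L Ω V P) ?_
  refine exists_congr fun σ => exists_congr fun U => exists_congr fun Λ => ?_
  refine and_congr_right fun _ => and_congr_right fun _ => and_congr_right fun _ =>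
    and_congr_right fun _ => and_congr_right fun _ => exists_congr fun k => ?_
  constructor
  · rintro ⟨d, h1, h2, h3⟩
    obtain ⟨h4, h5⟩ := (Bridge.selmerDiff_iff _ _ _).1 h2
    exact ⟨h1, h4, by rw [← h5]; exact h3⟩
  · rintro ⟨h1, h2, h3⟩
    exact ⟨_, h1, (Bridge.selmerDiff_iff _ _ _).2 ⟨h2, rfl⟩, h3⟩

end Fields

end Pool.BK
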