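import Pool.Agent.Helper95.BK.Public

/-!
The one-sided versions of the order of vanishing formula.
-/

open scoped Pointwise NumberField
open Polynomial IsDedekindDomain

namespace Pool.BK

section Fields

variable (L Ω : Type) [Field L] [NumberField L] [Field Ω] [Algebra L Ω]

/-- The inequality `e · ord ≤ e · m · (dim H¹_f - dim H⁰)` (`e = 1` or `e = -1`) for the `m`-th
power of the L-function of `V`: the Euler polynomials are rational and independent of `l`, the Euler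
product converges in a right half plane, its `m`-th power continues meromorphically to a
neighbourhood of the real half line `[0, ∞)`, the order at `0` is an integer `k`, and
`e k ≤ e m d` for every prime `p` and for `d = dim H¹_f - dim H⁰` (if these dimensions are
finite). -/
def HalfFormula (V : LSystem (Ω ≃ₐ[L] Ω))
    (B : ∀ (p : ℕ) [Fact p.Prime], PeriodData (Ω ≃ₐ[L] Ω) (𝓞 Ω) p) (e : ℤ) (m : ℕ) : Prop :=
  ∃ P : HeightOneSpectrum (𝓞 L) → ℚ[X], EulerFamily L Ω V P ∧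
    ∃ (σ : ℝ) (U : Set ℂ) (Λ : ℂ → ℂ), IsOpen U ∧ {s : ℂ | σ < s.re} ⊆ U ∧
      (∀ t : ℝ, 0 ≤ t → (t : ℂ) ∈ U) ∧ MeromorphicOn Λ U ∧
      (∀ s : ℂ, σ < s.re → ∃ z : ℂ, z ≠ 0 ∧ HasProd (eulerFactor L P s) z ∧ Λ s = z ^ m) ∧
      ∃ k : ℤ, meromorphicOrderAt Λ 0 = (k : WithTop ℤ) ∧
        ∀ (p : ℕ) [Fact p.Prime] (d : ℤ), SelmerDiff (V.rep p) (B p) d → e * k ≤ e * (m * d)

/-- The `n`-th power of the L-function of `V` has order `k` at `0`. -/
def BKval (V : LSystem (Ω ≃ₐ[L] Ω)) (n : ℕ) (k : ℤ) : Prop :=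
  ∃ P : HeightOneSpectrum (𝓞 L) → ℚ[X], IsEulerFamily L Ω V P ∧
    ∃ (σ : ℝ) (U : Set ℂ) (Λ : ℂ → ℂ), IsOpen U ∧ {s : ℂ | σ < s.re} ⊆ U ∧
      (∀ t : ℝ, 0 ≤ t → (t : ℂ) ∈ U) ∧ MeromorphicOn Λ U ∧
      (∀ s : ℂ, σ < s.re → ∃ z : ℂ, z ≠ 0 ∧ HasProd (eulerFactor L P s) z ∧ Λ s = z ^ n) ∧
      meromorphicOrderAt Λ 0 = (k : WithTop ℤ)

end Fields

end Pool.BK
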