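import Mathlib

/-!
A meromorphic function that is `1` in a right half plane has order `0` at the origin.
-/

open Filter Topology

namespace Pool.BK

namespace Ident

theorem ray_connected : IsPreconnected (Set.range fun t : NNReal => ((t : ℝ) : ℂ)) := by
  refine isPreconnected_range ?_
  exact Complex.continuous_ofReal.comp NNReal.continuous_coe

theorem half_connected (σ : ℝ) : IsPreconnected {s : ℂ | σ < s.re} := by
  have : Convex ℝ {s : ℂ | σ < s.re} := convex_halfSpace_re_gt σ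
  exact this.isPreconnected

end Ident

theorem order_zero_of_eq_one {U : Set ℂ} {Λ : ℂ → ℂ} {σ : ℝ} (hU : {s : ℂ | σ < s.re} ⊆ U)
    (hr : ∀ t : ℝ, 0 ≤ t → (t : ℂ) ∈ U) (hmer : MeromorphicOn Λ U)
    (h1 : ∀ s : ℂ, σ < s.re → Λ s = 1) : meromorphicOrderAt Λ 0 = 0 := by
  classical
  let S : Set ℂ := {s : ℂ | σ < s.re} ∪ Set.range fun t : NNReal => ((t : ℝ) : ℂ)
  have hS : IsPreconnected S := by
    refine IsPreconnected.union (((|σ| + 1 : ℝ)) : ℂ) ?_ ?_ (Ident.half_connected σ)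
      Ident.ray_connected
    · change σ < (((|σ| + 1 : ℝ)) : ℂ).re
      rw [Complex.ofReal_re]
      have := le_abs_self σ
      linarith
    · exact ⟨⟨|σ| + 1, by positivity⟩, rfl⟩
  have hSU : S ⊆ U := by
    rintro s (hs | ⟨t, rfl⟩)
    · exact hU hs
    · exact hr t t.2
  have hf : MeromorphicOn (fun s => Λ s - 1) S := fun s hs =>
    (hmer s (hSU hs)).fun_sub (MeromorphicAt.const 1 s)
  have h0S : (0 : ℂ) ∈ S := Or.inr ⟨0, by simp⟩
  have h2S : (((|σ| + 1 : ℝ)) : ℂ) ∈ S := Or.inr ⟨⟨|σ| + 1, by positivity⟩, rfl⟩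
  have htop : meromorphicOrderAt (fun s => Λ s - 1) 0 = ⊤ := by
    by_contra hne
    have h3 := hf.meromorphicOrderAt_ne_top_of_isPreconnected hS h0S h2S hne
    apply h3
    rw [meromorphicOrderAt_eq_top_iff]
    have hopen : IsOpen {s : ℂ | σ < s.re} := isOpen_lt continuous_const Complex.continuous_re
    have hmem : (((|σ| + 1 : ℝ)) : ℂ) ∈ {s : ℂ | σ < s.re} := by
      change σ < (((|σ| + 1 : ℝ)) : ℂ).re
      rw [Complex.ofReal_re]
      have := le_abs_self σ
      linarith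
    have hev : ∀ᶠ s in 𝓝 (((|σ| + 1 : ℝ)) : ℂ), Λ s - 1 = 0 := by
      filter_upwards [hopen.mem_nhds hmem] with s hs
      rw [h1 s hs, sub_self]
    exact hev.filter_mono nhdsWithin_le_nhds
  rw [meromorphicOrderAt_eq_top_iff] at htop
  have hcongr : Λ =ᶠ[𝓝[≠] 0] fun _ => (1 : ℂ) := by
    filter_upwards [htop] with s hs
    exact sub_eq_zero.1 hs
  rw [meromorphicOrderAt_congr hcongr, meromorphicOrderAt_const]
  simp

end Pool.BK
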