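import Pool.Agent.BKT.RelGen
import Pool.Agent.Helper79.BKH.Defs
import Pool.Agent.Helper79.BKH.Ident

/-!
The additivity of the orders of the L-functions and of the dimensions of the Selmer groups along a
relation between characters.
-/

open scoped Pointwise NumberField
open Polynomial IsDedekindDomain

namespace Pool.BK

namespace RelZero

section

variable {G : Type} [Group G]

/-- The zero-dimensional representation. -/
def zeroRep (G : Type) [Group G] : G →* Matrix (Fin 0) (Fin 0) ℚ := 1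

theorem zeroRep_trace (g : G) : (zeroRep G g).trace = 0 := by
  simp [Matrix.trace]

theorem zeroRep_ker : (zeroRep G).ker = ⊤ := by
  rw [eq_top_iff]
  intro g _
  rw [MonoidHom.mem_ker]
  rfl

theorem isEmpty_fin (n : ℕ) : IsEmpty (Fin (n * 0)) := by
  rw [Nat.mul_zero]
  infer_instance

end

section

variable {K : Type} [Field K] [NumberField K] {Ω : Type} [Field Ω] [Algebra K Ω]

theorem eulerPoly_zero {F : Type} [Field F] [CharZero F] {n : ℕ} (ρ : (Ω ≃ₐ[K] Ω) →* Matrix (Fin n) (Fin n) F)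
    (Q : Ideal (𝓞 Ω)) (φ : Ω ≃ₐ[K] Ω) :
    eulerPoly (tensorRep ρ (zeroRep (Ω ≃ₐ[K] Ω))) Q φ = 1 := by
  have h1 : (eulerPoly (tensorRep ρ (zeroRep (Ω ≃ₐ[K] Ω))) Q φ).natDegree ≤ n * 0 :=
    RelBasePow.natDegree_eulerPoly _ _ _
  have h3 : (eulerPoly (tensorRep ρ (zeroRep (Ω ≃ₐ[K] Ω))) Q φ).natDegree = 0 :=
    Nat.le_zero.1 (h1.trans (Nat.mul_zero n).le)
  rw [Polynomial.eq_C_of_natDegree_eq_zero h3]
  have h2 : (eulerPoly (tensorRep ρ (zeroRep (Ω ≃ₐ[K] Ω))) Q φ).coeff 0 = 1 :=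
    coeff_zero_reverse_charpoly _
  rw [h2, C_1]

theorem finrank_H1f_zero {p : ℕ} [Fact p.Prime] {n : ℕ}
    (ρ : (Ω ≃ₐ[K] Ω) →* Matrix (Fin n) (Fin n) ℚ_[p]) (B : PeriodData (Ω ≃ₐ[K] Ω) (𝓞 Ω) p) :
    Module.finrank ℚ_[p] (H1f (tensorRep ρ (zeroRep (Ω ≃ₐ[K] Ω))) B) = 0 := by
  have := isEmpty_fin n
  have h1 : Subsingleton (Z1f (tensorRep ρ (zeroRep (Ω ≃ₐ[K] Ω))) B) := by
    refine ⟨fun x y => Subtype.ext ?_⟩
    funext g i
    exact isEmptyElim i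
  have h2 : Subsingleton (H1f (tensorRep ρ (zeroRep (Ω ≃ₐ[K] Ω))) B) := by
    refine ⟨fun x y => ?_⟩
    obtain ⟨x, rfl⟩ := Submodule.Quotient.mk_surjective _ x
    obtain ⟨y, rfl⟩ := Submodule.Quotient.mk_surjective _ y
    rw [Subsingleton.elim x y]
  exact Module.finrank_zero_of_subsingleton

theorem h0_zero {F : Type} [Field F] [CharZero F] {n : ℕ}
    (ρ : (Ω ≃ₐ[K] Ω) →* Matrix (Fin n) (Fin n) F) :
    Pool.BK.h0 (tensorRep ρ (zeroRep (Ω ≃ₐ[K] Ω))) = 0 := by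
  have := isEmpty_fin n
  unfold Pool.BK.h0
  have h1 : Subsingleton (invSub (tensorRep ρ (zeroRep (Ω ≃ₐ[K] Ω))) ⊤) := by
    refine ⟨fun x y => Subtype.ext ?_⟩
    funext i
    exact isEmptyElim i
  exact Module.finrank_zero_of_subsingleton

end

end RelZero

section Main

variable (K : Type) [Field K] [NumberField K] (Ω : Type) [Field Ω] [Algebra K Ω] [IsAlgClosed Ω]
  [Algebra.IsAlgebraic K Ω]

open RelBasePow RelZero

theorem rel_zero (V : LSystem (Ω ≃ₐ[K] Ω))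
    (B : ∀ (p : ℕ) [Fact p.Prime], PeriodData (Ω ≃ₐ[K] Ω) (𝓞 Ω) p)
    {J : Type} [Fintype J] (r' : J → ℕ)
    (θ' : ∀ j, (Ω ≃ₐ[K] Ω) →* Matrix (Fin (r' j)) (Fin (r' j)) ℚ)
    (hθ' : ∀ j, IsOpen ((θ' j).ker : Set (Ω ≃ₐ[K] Ω)))
    {ι : Type} [Fintype ι] (E : ι → IntermediateField K Ω) [hE : ∀ i, NumberField (E i)]
    (a : ι → ℤ) (c : J → ℤ)
    (ha : ∀ g : Ω ≃ₐ[K] Ω, ∑ i, (a i : ℚ) * (fixCount (E i).fixingSubgroup g : ℚ) +
      ∑ j, (c j : ℚ) * (θ' j g).trace = 0)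
    (m' : J → ℕ) (hm' : ∀ j, 0 < m' j) (k : J → ℕ) (E' : ∀ j, Fin (k j) → IntermediateField K Ω)
    (a' : ∀ j, Fin (k j) → ℤ) (hE' : ∀ j l, NumberField (E' j l))
    (ha' : ∀ (j : J) (g : Ω ≃ₐ[K] Ω),
      ∑ l, (a' j l : ℚ) * (fixCount (E' j l).fixingSubgroup g : ℚ) = m' j * (θ' j g).trace)
    (M₀ : IntermediateField K Ω) [hM₀ : NumberField M₀] (h0 : M₀.fixingSubgroup.Normal)
    (h1' : ∀ j, M₀.fixingSubgroup ≤ (θ' j).ker)
    (h2 : ∀ i, M₀.fixingSubgroup ≤ (E i).fixingSubgroup)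
    (h2' : ∀ j l, M₀.fixingSubgroup ≤ (E' j l).fixingSubgroup)
    (hfin : ∀ (p : ℕ) [Fact p.Prime],
      Module.Finite ℚ_[p] (H1f ((V.rep p).comp (resHom K M₀ Ω)) ((B p).res M₀)))
    (h : ∀ i, ∃ n : ℕ, 0 < n ∧ BKInd K (E i) Ω V B n) (n₂ : J → ℕ) (hn₂ : ∀ j, 0 < n₂ j)
    (k₂ : J → ℤ) (h' : ∀ j, BKval K Ω (V.twist (θ' j) (hθ' j)) (n₂ j) (k₂ j)) (p : ℕ)
    [Fact p.Prime] :
    (∀ j, Module.Finite ℚ_[p] (H1f (tensorRep (V.rep p) (θ' j)) (B p))) ∧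
    ∑ j, (c j : ℚ) * ((k₂ j : ℚ) / (n₂ j : ℚ) -
      (((Module.finrank ℚ_[p] (H1f (tensorRep (V.rep p) (θ' j)) (B p)) : ℤ) -
        (Pool.BK.h0 (tensorRep (V.rep p) (θ' j)) : ℤ) : ℤ) : ℚ)) = 0 := by
  classical
  choose n₁ hn₁ P₁ hP₁ σ₁ U₁ Λ₁ hUo₁ hUσ₁ hUr₁ hmer₁ hprod₁ hord₁ using h
  choose P₂ hP₂ σ₂ U₂ Λ₂ hUo₂ hUσ₂ hUr₂ hmer₂ hprod₂ hord₂ using h'
  let n : ι ⊕ J → ℕ := Sum.elim n₁ n₂
  let P : ι ⊕ J → HeightOneSpectrum (𝓞 K) → ℚ[X] := Sum.elim P₁ P₂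
  let σ : ι ⊕ J → ℝ := Sum.elim σ₁ σ₂
  let U : ι ⊕ J → Set ℂ := Sum.elim U₁ U₂
  let Λ : ι ⊕ J → ℂ → ℂ := Sum.elim Λ₁ Λ₂
  let ac : ι ⊕ J → ℤ := Sum.elim a c
  have hn : ∀ x, 0 < n x := by rintro (i | j); exacts [hn₁ i, hn₂ j]
  have hUσ : ∀ x, {s : ℂ | σ x < s.re} ⊆ U x := by rintro (i | j); exacts [hUσ₁ i, hUσ₂ j]
  have hUr : ∀ x, ∀ t : ℝ, 0 ≤ t → (t : ℂ) ∈ U x := by rintro (i | j); exacts [hUr₁ i, hUr₂ j]
  have hmer : ∀ x, MeromorphicOn (Λ x) (U x) := by rintro (i | j); exacts [hmer₁ i, hmer₂ j]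
  have hprod : ∀ x, ∀ s : ℂ, σ x < s.re →
      ∃ z : ℂ, z ≠ 0 ∧ HasProd (eulerFactor K (P x) s) z ∧ Λ x s = z ^ n x := by
    rintro (i | j); exacts [hprod₁ i, hprod₂ j]
  have hzero : IsOpen ((zeroRep (Ω ≃ₐ[K] Ω)).ker : Set (Ω ≃ₐ[K] Ω)) := by
    rw [zeroRep_ker]
    exact isOpen_univ
  have ha0 : ∀ g : Ω ≃ₐ[K] Ω, ∑ i, (a i : ℚ) * (fixCount (E i).fixingSubgroup g : ℚ) +
      ∑ j, (c j : ℚ) * (θ' j g).trace = (1 : ℕ) * (zeroRep (Ω ≃ₐ[K] Ω) g).trace := by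
    intro g
    rw [ha g, zeroRep_trace, mul_zero]
  -- the local relation over `ℚ`
  have hrel : ∀ v : HeightOneSpectrum (𝓞 K), (1 : ℚ[X]) ^ 1 * ∏ x, (P x v) ^ (-(ac x)).toNat =
      ∏ x, (P x v) ^ (ac x).toNat := by
    intro v
    obtain ⟨l, -, hl, hlv⟩ := exists_prime v
    obtain ⟨Q, hQ, hQv⟩ := exists_over (Ω := Ω) v
    obtain ⟨φ, hφ⟩ := exists_frob v Q hQ hQv
    choose R hR using fun i => exists_localFamily K Ω (V.rep l) (E i) v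
    obtain ⟨h1, -⟩ := gen_local (V.rep l) (zeroRep (Ω ≃ₐ[K] Ω)) hzero r' θ' hθ' v Q hQ hQv φ hφ E a
      c 1 ha0 R hR (fun x => (P x v).map (algebraMap ℚ ℚ_[l]))
      (fun i => (hP₁ i v l hlv (R i) (hR i)).symm) (fun j => (hP₂ j v l hlv Q hQ hQv φ hφ).symm)
    rw [eulerPoly_zero, one_pow, one_mul] at h1
    rw [one_pow, one_mul]
    apply Polynomial.map_injective (algebraMap ℚ ℚ_[l]) (algebraMap ℚ ℚ_[l]).injective
    simp only [Polynomial.map_prod, Polynomial.map_pow]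
    exact h1
  let σ0 : ℝ := ∑ x, |σ x|
  have hσ0 : ∀ x, σ x ≤ σ0 := fun x => (le_abs_self _).trans
    (Finset.single_le_sum (f := fun x => |σ x|) (fun j _ => abs_nonneg _) (Finset.mem_univ x))
  let M : ℕ := ∏ x, n x
  let M' : ι ⊕ J → ℕ := fun x => ∏ y ∈ Finset.univ.erase x, n y
  have hM : ∀ x, n x * M' x = M := fun x => Finset.mul_prod_erase _ _ (Finset.mem_univ x)
  have hM0 : 0 < M := Finset.prod_pos fun x _ => hn x
  have hone : meromorphicOrderAt (fun s => ∏ x, Λ x s ^ (ac x * M' x)) 0 = 0 := by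
    refine order_zero_of_eq_one (U := ⋂ x, U x) (σ := σ0) ?_ ?_ ?_ ?_
    · intro s hs
      refine Set.mem_iInter.2 fun i => hUσ i ?_
      exact lt_of_le_of_lt (hσ0 i) hs
    · intro t ht
      exact Set.mem_iInter.2 fun i => hUr i t ht
    · intro s hs
      exact MeromorphicAt.fun_prod fun i _ => (hmer i s (Set.mem_iInter.1 hs i)).fun_zpow _
    · intro s hs
      choose z hz hzp hzΛ using fun x => hprod x s (lt_of_le_of_lt (hσ0 x) hs)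
      have hw : HasProd (eulerFactor K (fun _ => (1 : ℚ[X])) s) 1 := by
        have e1 : eulerFactor K (fun _ => (1 : ℚ[X])) s = fun _ => 1 := by
          funext v
          simp [eulerFactor]
        rw [e1]
        exact hasProd_one
      have h5 := RelInd.value_relation ac 1 P (fun _ => 1) hrel s 1 hw z hz hzp
      rw [one_pow] at h5
      have h6 : ∏ x, Λ x s ^ (ac x * M' x) = (∏ x, z x ^ ac x) ^ M := by
        rw [← Finset.prod_pow]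
        refine Finset.prod_congr rfl fun i _ => ?_
        rw [hzΛ i, ← zpow_natCast, ← zpow_natCast, ← zpow_mul, ← zpow_mul, ← hM i]
        congr 1
        push_cast
        ring
      rw [h6, ← h5, one_pow]
  obtain ⟨-, hh1, hh0⟩ := gen_dim (V.rep p) (V.cont p) (B p) (zeroRep (Ω ≃ₐ[K] Ω)) r' θ' E a c 1
    one_pos ha0 m' hm' k E' a' hE' ha' M₀ h0 (by rw [zeroRep_ker]; exact le_top) h1' h2 h2' (hfin p)
  rw [finrank_H1f_zero, Nat.cast_zero, mul_zero] at hh1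
  rw [h0_zero, Nat.cast_zero, mul_zero] at hh0
  have hfinj : ∀ j, Module.Finite ℚ_[p] (H1f (tensorRep (V.rep p) (θ' j)) (B p)) := by
    intro j
    have hj : ∀ l, NumberField (E' j l) := hE' j
    exact (gen_dim (V.rep p) (V.cont p) (B p) (θ' j) (J := Empty) (fun x => x.elim)
      (fun x => x.elim) (E' j) (a' j) (fun x => x.elim) (m' j) (hm' j)
      (fun g => by rw [← ha' j g]; simp) (fun x => x.elim) (fun x => x.elim) (fun x => x.elim)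
      (fun x => x.elim) (fun x => x.elim) (fun x => x.elim) (fun x => x.elim) M₀ h0 (h1' j)
      (fun x => x.elim) (h2' j) (fun x => x.elim) (hfin p)).1
  refine ⟨hfinj, ?_⟩
  let d : ι ⊕ J → ℤ := Sum.elim
    (fun i => (Module.finrank ℚ_[p] (H1f ((V.rep p).comp (resHom K (E i) Ω))
      ((B p).res (E i))) : ℤ) - (Pool.BK.h0 ((V.rep p).comp (resHom K (E i) Ω)) : ℤ))
    (fun j => (Module.finrank ℚ_[p] (H1f (tensorRep (V.rep p) (θ' j)) (B p)) : ℤ) -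
      (Pool.BK.h0 (tensorRep (V.rep p) (θ' j)) : ℤ))
  let o : ι ⊕ J → ℤ := Sum.elim (fun i => (n₁ i : ℤ) * d (Sum.inl i)) k₂
  have hord : ∀ x, meromorphicOrderAt (Λ x) 0 = ((o x : ℤ) : WithTop ℤ) := by
    rintro (i | j)
    · exact (hord₁ i p).2
    · exact hord₂ j
  have h2' := (order_prod_zpow Λ 0
    (fun i => hmer i 0 (by simpa using hUr i 0 le_rfl)) (fun i => ac i * M' i) _ hord).2
  rw [hone] at h2'
  have h3 : ∑ x, ac x * (M' x : ℤ) * o x = 0 := by exact_mod_cast h2'.symm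
  have h4 : ∑ x, (ac x : ℚ) * ((o x : ℚ) / (n x : ℚ)) = 0 := by
    have h5 : (M : ℚ) * ∑ x, (ac x : ℚ) * ((o x : ℚ) / (n x : ℚ)) =
        ((∑ x, ac x * (M' x : ℤ) * o x : ℤ) : ℚ) := by
      rw [Finset.mul_sum]
      push_cast
      refine Finset.sum_congr rfl fun x _ => ?_
      have hx : (n x : ℚ) ≠ 0 := by exact_mod_cast (hn x).ne'
      rw [← hM x]
      push_cast
      field_simp
    rw [h3, Int.cast_zero] at h5
    have hM1 : (M : ℚ) ≠ 0 := by exact_mod_cast hM0.ne'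
    exact (mul_eq_zero.1 h5).resolve_left hM1
  rw [Fintype.sum_sum_type] at h4
  have h6 : ∀ i, ((o (Sum.inl i) : ℤ) : ℚ) / (n (Sum.inl i) : ℚ) = (d (Sum.inl i) : ℚ) := by
    intro i
    have hx : (n₁ i : ℚ) ≠ 0 := by exact_mod_cast (hn₁ i).ne'
    change (((n₁ i : ℤ) * d (Sum.inl i) : ℤ) : ℚ) / (n₁ i : ℚ) = _
    push_cast
    field_simp
  have h7 : ∑ i, (a i : ℚ) * (d (Sum.inl i) : ℚ) + ∑ j, (c j : ℚ) * (d (Sum.inr j) : ℚ) = 0 := by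
    have h8 : ∑ i, a i * d (Sum.inl i) + ∑ j, c j * d (Sum.inr j) = 0 := by
      simp only [d, Sum.elim_inl, Sum.elim_inr, mul_sub, Finset.sum_sub_distrib]
      linear_combination hh1 - hh0
    exact_mod_cast h8
  have h9 : ∑ i, (ac (Sum.inl i) : ℚ) * (((o (Sum.inl i) : ℤ) : ℚ) / (n (Sum.inl i) : ℚ)) =
      ∑ i, (a i : ℚ) * (d (Sum.inl i) : ℚ) :=
    Finset.sum_congr rfl fun i _ => by rw [h6 i]; rfl
  rw [h9] at h4
  have h10 : ∑ j, (c j : ℚ) * ((k₂ j : ℚ) / (n₂ j : ℚ) - (d (Sum.inr j) : ℚ)) =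
      ∑ j, (ac (Sum.inr j) : ℚ) * (((o (Sum.inr j) : ℤ) : ℚ) / (n (Sum.inr j) : ℚ)) -
        ∑ j, (c j : ℚ) * (d (Sum.inr j) : ℚ) := by
    rw [← Finset.sum_sub_distrib]
    refine Finset.sum_congr rfl fun j _ => ?_
    rw [mul_sub]
    rfl
  change ∑ j, (c j : ℚ) * ((k₂ j : ℚ) / (n₂ j : ℚ) - (d (Sum.inr j) : ℚ)) = 0
  rw [h10]
  linear_combination h4 - h7

end Main

end Pool.BK
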