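import Pool.Agent.Helper67.BKT.Defs
import Pool.Agent.BK.RelBasePow
import Pool.Agent.BKT.TwistLocal
import Pool.Agent.BKT.TwistDim
import Pool.Agent.Helper79.BKH.Defect
import Pool.Agent.Helper79.BKH.RelZero

/-!
The defect of the order of vanishing formula for the powers of the L-function of a twist by an Artin
representation, from a relation between its character and permutation characters.
-/

open scoped Pointwise NumberField
open Polynomial IsDedekindDomain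

namespace Pool.BK

section Main

variable (K : Type) [Field K] [NumberField K] (Ω : Type) [Field Ω] [Algebra K Ω] [IsAlgClosed Ω]
  [Algebra.IsAlgebraic K Ω]

open RelBasePow RelZero

theorem defect_twist (V : LSystem (Ω ≃ₐ[K] Ω)) {p : ℕ} [Fact p.Prime]
    (B : PeriodData (Ω ≃ₐ[K] Ω) (𝓞 Ω) p) {r : ℕ}
    (θ : (Ω ≃ₐ[K] Ω) →* Matrix (Fin r) (Fin r) ℚ) (hθ : IsOpen (θ.ker : Set (Ω ≃ₐ[K] Ω)))
    {ι : Type} [Fintype ι]
    (E : ι → IntermediateField K Ω) [∀ i, NumberField (E i)] (a : ι → ℤ) (m : ℕ) (hm : 0 < m)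
    (ha : ∀ g : Ω ≃ₐ[K] Ω, ∑ i, (a i : ℚ) * (fixCount (E i).fixingSubgroup g : ℚ) =
      m * (θ g).trace)
    (i₀ : ι) (h0 : (E i₀).fixingSubgroup.Normal) (h1 : (E i₀).fixingSubgroup ≤ θ.ker)
    (h2 : ∀ i, (E i₀).fixingSubgroup ≤ (E i).fixingSubgroup) (n : ℕ) (D : ι → ℤ)
    (h : ∀ i, BKdefect (E i) Ω (V.res (E i)) (B.res (E i)) n (D i)) :
    BKdefect K Ω (V.twist θ hθ) B (m * n) (∑ i, a i * D i) := by
  classical
  have hne : Nonempty ι := ⟨i₀⟩
  choose P hP σ U Λ hUo hUσ hUr hmer hprod k hk hfin hD using h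
  -- the local relation over `ℚ`
  let A : HeightOneSpectrum (𝓞 K) → ℚ[X] := fun v =>
    ∏ i, (localProd K (E i) v (P i)) ^ (a i).toNat
  let C : HeightOneSpectrum (𝓞 K) → ℚ[X] := fun v =>
    ∏ i, (localProd K (E i) v (P i)) ^ (-(a i)).toNat
  have key : ∀ (v : HeightOneSpectrum (𝓞 K)) (l : ℕ) [Fact l.Prime] (hl : (l : 𝓞 K) ∉ v.asIdeal)
      (Q : Ideal (𝓞 Ω)) (hQ : Q.IsPrime) (hQv : Q.under (𝓞 K) = v.asIdeal) (φ : Ω ≃ₐ[K] Ω)
      (hφ : ∀ x : 𝓞 Ω, φ • x - x ^ v.asIdeal.absNorm ∈ Q),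
      (eulerPoly (tensorRep (V.rep l) θ) Q φ) ^ m * (C v).map (algebraMap ℚ ℚ_[l]) =
        (A v).map (algebraMap ℚ ℚ_[l]) ∧ ∀ i, (localProd K (E i) v (P i)).coeff 0 = 1 := by
    intro v l _ hl Q hQ hQv φ hφ
    obtain ⟨h1, h2⟩ := twist_local (V.rep l) θ hθ v Q hQ hQv φ hφ E a m ha
      (fun i w => (P i w).map (algebraMap ℚ ℚ_[l])) (fun i => localFamily (hP i) v l hl)
    simp only [← localProd_map] at h1 h2
    refine ⟨?_, fun i => ?_⟩
    · simp only [A, C, Polynomial.map_prod, Polynomial.map_pow]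
      exact h1
    · have := h2 i
      rw [coeff_map] at this
      exact (algebraMap ℚ ℚ_[l]).injective (by rw [this, map_one])
  have hc0 : ∀ v i, (localProd K (E i) v (P i)).coeff 0 = 1 := by
    intro v
    obtain ⟨l, -, hl, hlv⟩ := exists_prime v
    obtain ⟨Q, hQ, hQv⟩ := exists_over (Ω := Ω) v
    obtain ⟨φ, hφ⟩ := exists_frob v Q hQ hQv
    exact (key v l hlv Q hQ hQv φ hφ).2
  have hCne : ∀ v, C v ≠ 0 := by
    intro v
    refine Finset.prod_ne_zero_iff.2 fun i _ => pow_ne_zero _ fun h0 => ?_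
    have := hc0 v i
    rw [h0] at this
    simp at this
  have hdvd : ∀ v, C v ∣ A v := by
    intro v
    obtain ⟨l, -, hl, hlv⟩ := exists_prime v
    obtain ⟨Q, hQ, hQv⟩ := exists_over (Ω := Ω) v
    obtain ⟨φ, hφ⟩ := exists_frob v Q hQ hQv
    rw [← Polynomial.map_dvd_map' (algebraMap ℚ ℚ_[l])]
    exact ⟨_, by rw [← (key v l hlv Q hQ hQv φ hφ).1, mul_comm]⟩
  choose R0 hR0 using hdvd
  have hpow : ∀ (v : HeightOneSpectrum (𝓞 K)) (l : ℕ) [Fact l.Prime] (hl : (l : 𝓞 K) ∉ v.asIdeal)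
      (Q : Ideal (𝓞 Ω)) (hQ : Q.IsPrime) (hQv : Q.under (𝓞 K) = v.asIdeal) (φ : Ω ≃ₐ[K] Ω)
      (hφ : ∀ x : 𝓞 Ω, φ • x - x ^ v.asIdeal.absNorm ∈ Q),
      (eulerPoly (tensorRep (V.rep l) θ) Q φ) ^ m = (R0 v).map (algebraMap ℚ ℚ_[l]) := by
    intro v l _ hl Q hQ hQv φ hφ
    have h1 := (key v l hl Q hQ hQv φ hφ).1
    rw [hR0 v, Polynomial.map_mul, mul_comm] at h1
    exact mul_left_cancel₀
      ((Polynomial.map_ne_zero_iff (algebraMap ℚ ℚ_[l]).injective).2 (hCne v)) h1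
  have hroot : ∀ v : HeightOneSpectrum (𝓞 K), ∃ q : ℚ[X], q.coeff 0 = 1 ∧ q ^ m = R0 v ∧
      q.natDegree ≤ max (V.dim 2 * r) (V.dim 3 * r) := by
    intro v
    obtain ⟨l, hl23, hl, hlv⟩ := exists_prime v
    obtain ⟨Q, hQ, hQv⟩ := exists_over (Ω := Ω) v
    obtain ⟨φ, hφ⟩ := exists_frob v Q hQ hQv
    obtain ⟨q, hr0, hrm, hr⟩ := exists_root_rat l (eulerPoly (tensorRep (V.rep l) θ) Q φ) (R0 v) m hm
      (coeff_zero_reverse_charpoly _) (hpow v l hlv Q hQ hQv φ hφ)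
    refine ⟨q, hr0, hrm, ?_⟩
    have h1 : q.natDegree = (eulerPoly (tensorRep (V.rep l) θ) Q φ).natDegree := by
      rw [hr, Polynomial.natDegree_map]
    rw [h1]
    refine (natDegree_eulerPoly _ _ _).trans ?_
    rcases hl23 with rfl | rfl
    · exact le_max_left _ _
    · exact le_max_right _ _
  choose P0 hP00 hP0m hP0d using hroot
  have hfam : IsEulerFamily K Ω (V.twist θ hθ) P0 := by
    intro v l _ hl Q hQ hQv φ hφ
    obtain ⟨q, hr0, hrm, hr⟩ := exists_root_rat l (eulerPoly (tensorRep (V.rep l) θ) Q φ) (R0 v) m hm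
      (coeff_zero_reverse_charpoly _) (hpow v l hl Q hQ hQv φ hφ)
    change eulerPoly (tensorRep (V.rep l) θ) Q φ = _
    rw [hr, root_unique q (P0 v) m hm hr0 (hP00 v) (by rw [hrm, hP0m])]
  let σ0 : ℝ := Finset.univ.sup' Finset.univ_nonempty σ
  have hσ0 : ∀ i, σ i ≤ σ0 := fun i => Finset.le_sup' σ (Finset.mem_univ i)
  have hNv : ∀ v : HeightOneSpectrum (𝓞 K), 1 < v.asIdeal.absNorm := by
    intro v
    have h0 : v.asIdeal.absNorm ≠ 0 := by
      rw [Ne, Ideal.absNorm_eq_zero_iff]; exact v.ne_bot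
    have h1 : v.asIdeal.absNorm ≠ 1 := by
      rw [Ne, Ideal.absNorm_eq_one_iff]; exact v.isPrime.ne_top
    omega
  -- the factors of the fields `E i` do not vanish on the half plane
  have hloc : ∀ s : ℂ, σ0 < s.re → ∀ v i,
      aeval ((v.asIdeal.absNorm : ℂ) ^ (-s)) (localProd K (E i) v (P i)) ≠ 0 := by
    intro s hs v i h0
    obtain ⟨z, hz, hzp, -⟩ := hprod i s (lt_of_le_of_lt (hσ0 i) hs)
    have := ne_zero_of_hasProd (hasProd_localProd K (E i) (P i) s z hzp) hz v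
    apply this
    rw [h0, inv_zero]
  have hR0val : ∀ s : ℂ, σ0 < s.re → ∀ v,
      aeval ((v.asIdeal.absNorm : ℂ) ^ (-s)) (R0 v) =
        ∏ i, aeval ((v.asIdeal.absNorm : ℂ) ^ (-s)) (localProd K (E i) v (P i)) ^ a i := by
    intro s hs v
    exact aeval_core (fun i => localProd K (E i) v (P i)) a (R0 v) (hR0 v) _ (hloc s hs v)
  obtain ⟨σ1, hσ1⟩ := halfplane_of_roots K P0 (max (V.dim 2 * r) (V.dim 3 * r)) hP0d hP00 σ0 (by
    intro v x hx
    by_cases hx0 : x = 0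
    · rw [hx0, ← coeff_zero_eq_aeval_zero', hP00 v]
      simp
    · obtain ⟨s, hs, rfl⟩ := exists_cpow _ (hNv v) σ0 x hx0 hx
      intro h0
      have h1 := hR0val s hs v
      rw [← hP0m v, map_pow, h0, zero_pow hm.ne'] at h1
      exact (Finset.prod_ne_zero_iff.2 fun i _ => zpow_ne_zero _ (hloc s hs v i)) h1.symm)
  refine ⟨P0, hfam, max σ0 σ1, ⋂ i, U i, fun s => ∏ i, Λ i s ^ a i, isOpen_iInter_of_finite hUo,
    ?_, ?_, ?_, ?_, ?_⟩
  · intro s hs
    refine Set.mem_iInter.2 fun i => hUσ i ?_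
    exact lt_of_le_of_lt ((hσ0 i).trans (le_max_left _ _)) hs
  · intro t ht
    exact Set.mem_iInter.2 fun i => hUr i t ht
  · intro s hs
    have hmi : ∀ i, MeromorphicAt (Λ i) s := fun i => hmer i s (Set.mem_iInter.1 hs i)
    exact MeromorphicAt.fun_prod fun i _ => (hmi i).fun_zpow (a i)
  · intro s hs
    have hs0 : σ0 < s.re := lt_of_le_of_lt (le_max_left _ _) hs
    have hs1 : σ1 < s.re := lt_of_le_of_lt (le_max_right _ _) hs
    obtain ⟨w, hw, hwp⟩ := hσ1 s hs1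
    choose z hz hzp hzΛ using fun i => hprod i s (lt_of_le_of_lt (hσ0 i) hs0)
    refine ⟨w, hw, hwp, ?_⟩
    have h1 := hasProd_zpow (fun i (v : HeightOneSpectrum (𝓞 K)) =>
      (aeval ((v.asIdeal.absNorm : ℂ) ^ (-s)) (localProd K (E i) v (P i)))⁻¹) z hz
      (fun i => hasProd_localProd K (E i) (P i) s (z i) (hzp i)) a
    have h2 := hasProd_zpow (ι := Unit) (fun _ (v : HeightOneSpectrum (𝓞 K)) =>
      eulerFactor K P0 s v) (fun _ => w) (fun _ => hw) (fun _ => hwp) (fun _ => (m : ℤ))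
    simp only [Finset.univ_unique, Finset.prod_singleton, zpow_natCast] at h2
    have h3 : (fun v : HeightOneSpectrum (𝓞 K) => eulerFactor K P0 s v ^ m) =
        fun v => ∏ i, ((aeval ((v.asIdeal.absNorm : ℂ) ^ (-s))
          (localProd K (E i) v (P i)))⁻¹) ^ a i := by
      funext v
      rw [eulerFactor, inv_pow, ← map_pow, hP0m v, hR0val s hs0 v, ← Finset.prod_inv_distrib]
      refine Finset.prod_congr rfl fun i _ => ?_
      rw [inv_zpow]
    rw [h3] at h2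
    have h4 : w ^ m = ∏ i, z i ^ a i := h2.unique h1
    rw [pow_mul, h4, ← Finset.prod_pow]
    refine Finset.prod_congr rfl fun i _ => ?_
    rw [hzΛ i, ← zpow_natCast, ← zpow_natCast, ← zpow_mul, ← zpow_mul, mul_comm]
  · have hfin' : Module.Finite ℚ_[p] (H1f ((V.rep p).comp (resHom K (E i₀) Ω))
        (B.res (E i₀))) := hfin i₀
    obtain ⟨hfin0, h1'⟩ := twist_h1 (V.rep p) (V.cont p) B θ E a m hm ha i₀ h0 h1 h2 hfin'
    have h0' := twist_h0 (V.rep p) θ E a m hm ha i₀ h0 h1 h2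
    refine ⟨∑ i, a i * k i, ?_, hfin0, ?_⟩
    · exact (order_prod_zpow Λ 0
        (fun i => hmer i 0 (by simpa using hUr i 0 le_rfl)) a _ hk).2
    · change ∑ i, a i * k i - ((m * n : ℕ) : ℤ) * ((Module.finrank ℚ_[p]
        (H1f (tensorRep (V.rep p) θ) B) : ℤ) -
            (Pool.BK.h0 (tensorRep (V.rep p) θ) : ℤ)) = _
      have h3 : ∀ i, a i * D i = a i * k i - ((n : ℤ) * (a i * (Module.finrank ℚ_[p]
          (H1f ((V.rep p).comp (resHom K (E i) Ω)) (B.res (E i))) : ℤ)) - (n : ℤ) * (a i *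
          (Pool.BK.h0 ((V.rep p).comp (resHom K (E i) Ω)) : ℤ))) := by
        intro i
        have h4 : k i - n * ((Module.finrank ℚ_[p] (H1f ((V.rep p).comp (resHom K (E i) Ω))
            (B.res (E i))) : ℤ) - (Pool.BK.h0 ((V.rep p).comp (resHom K (E i) Ω)) : ℤ)) =
            D i := hD i
        rw [← h4]
        ring
      rw [Finset.sum_congr rfl fun i _ => h3 i, Finset.sum_sub_distrib, Finset.sum_sub_distrib,
        ← Finset.mul_sum, ← Finset.mul_sum, h1', h0']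
      push_cast
      ring

/-- Additivity of the defect along the relations between permutation characters. -/
theorem defect_zero (V : LSystem (Ω ≃ₐ[K] Ω)) {p : ℕ} [Fact p.Prime]
    (B : PeriodData (Ω ≃ₐ[K] Ω) (𝓞 Ω) p) {ι : Type} [Fintype ι]
    (E : ι → IntermediateField K Ω) [∀ i, NumberField (E i)] (a : ι → ℤ)
    (ha : ∀ g : Ω ≃ₐ[K] Ω, ∑ i, (a i : ℚ) * (fixCount (E i).fixingSubgroup g : ℚ) = 0)
    (i₀ : ι) (h0 : (E i₀).fixingSubgroup.Normal)
    (h2 : ∀ i, (E i₀).fixingSubgroup ≤ (E i).fixingSubgroup) (n : ℕ) (D : ι → ℤ)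
    (h : ∀ i, BKdefect (E i) Ω (V.res (E i)) (B.res (E i)) n (D i)) :
    ∑ i, a i * D i = 0 := by
  have hzero : IsOpen ((zeroRep (Ω ≃ₐ[K] Ω)).ker : Set (Ω ≃ₐ[K] Ω)) := by
    rw [zeroRep_ker]
    exact isOpen_univ
  obtain ⟨P, hP, σ, U, Λ, hUo, hUσ, hUr, hmer, hprod, k, hk, -, hD⟩ :=
    defect_twist K Ω V B (zeroRep (Ω ≃ₐ[K] Ω)) hzero E a 1 one_pos (fun g => by
      rw [ha g, zeroRep_trace, mul_zero]) i₀ h0 (by rw [zeroRep_ker]; exact le_top) h2 n D h
  have hP1 : ∀ v, P v = 1 := by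
    intro v
    obtain ⟨l, -, hl, hlv⟩ := exists_prime v
    obtain ⟨Q, hQ, hQv⟩ := exists_over (Ω := Ω) v
    obtain ⟨φ, hφ⟩ := exists_frob v Q hQ hQv
    have h1 : eulerPoly (tensorRep (V.rep l) (zeroRep (Ω ≃ₐ[K] Ω))) Q φ =
        (P v).map (algebraMap ℚ ℚ_[l]) := hP v l hlv Q hQ hQv φ hφ
    rw [eulerPoly_zero] at h1
    apply Polynomial.map_injective (algebraMap ℚ ℚ_[l]) (algebraMap ℚ ℚ_[l]).injective
    rw [← h1, Polynomial.map_one]
  have hone : meromorphicOrderAt Λ 0 = 0 := by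
    refine order_zero_of_eq_one hUσ hUr hmer fun s hs => ?_
    obtain ⟨z, hz, hzp, hzΛ⟩ := hprod s hs
    have hw : HasProd (eulerFactor K P s) 1 := by
      have e1 : eulerFactor K P s = fun _ => 1 := by
        funext v
        simp [eulerFactor, hP1 v]
      rw [e1]
      exact hasProd_one
    rw [hzΛ, hzp.unique hw, one_pow]
  have hk0 : k = 0 := by
    rw [hone] at hk
    exact_mod_cast hk.symm
  have h5 : (Module.finrank ℚ_[p] (H1f ((V.twist (zeroRep (Ω ≃ₐ[K] Ω)) hzero).rep p) B) : ℤ) =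
      0 := by
    exact_mod_cast finrank_H1f_zero (V.rep p) B
  have h6 : (Pool.BK.h0 ((V.twist (zeroRep (Ω ≃ₐ[K] Ω)) hzero).rep p) : ℤ) = 0 := by
    exact_mod_cast h0_zero (V.rep p)
  rw [← hD, hk0, h5, h6]
  ring

end Main

end Pool.BK
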