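import Pool.Agent.BK.Artin
import Pool.Agent.BK.ArtinCompact

/-!
An explicit form of Artin's induction theorem and a Bessel inequality for functions on the
subgroups of a finite group which are additive along the relations between permutation characters.
-/

namespace Pool.BK

namespace Parseval

open scoped Classical

open Artin ArtinCompact

section Arith

lemma sum_moebius_divisors (m : ℕ) :
    ∑ d ∈ m.divisors, ArithmeticFunction.moebius d = if m = 1 then 1 else 0 := by
  have h := congrArg (fun f : ArithmeticFunction ℤ => f m) ArithmeticFunction.moebius_mul_coe_zeta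
  simp only [ArithmeticFunction.coe_mul_zeta_apply, ArithmeticFunction.one_apply] at h
  exact h

lemma sum_abs_moebius (n : ℕ) (hn : n ≠ 0) :
    ∑ d ∈ n.divisors, (|ArithmeticFunction.moebius d| : ℚ) * ((n : ℚ) / d) =
      n * ∏ q ∈ n.primeFactors, (1 + (q : ℚ)⁻¹) := by
  have h1 : ∑ d ∈ n.divisors, (|ArithmeticFunction.moebius d| : ℚ) * ((n : ℚ) / d) =
      ∑ d ∈ n.divisors with Squarefree d, (n : ℚ) / d := by
    rw [Finset.sum_filter]
    refine Finset.sum_congr rfl fun d _ => ?_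
    split_ifs with h
    · have h2 := ArithmeticFunction.abs_moebius_eq_one_of_squarefree h
      have h3 : (|((ArithmeticFunction.moebius d : ℤ) : ℚ)|) = 1 := by exact_mod_cast h2
      rw [h3, one_mul]
    · rw [ArithmeticFunction.moebius_eq_zero_of_not_squarefree h]
      simp
  rw [h1, Nat.sum_divisors_filter_squarefree hn, Finset.prod_one_add, Finset.mul_sum]
  have h4 : (UniqueFactorizationMonoid.normalizedFactors n).toFinset = n.primeFactors := by
    rw [Nat.factors_eq]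
    rfl
  rw [h4]
  refine Finset.sum_congr rfl fun i _ => ?_
  rw [Finset.prod_val, Nat.cast_prod, Finset.prod_inv_distrib]
  rfl

lemma moebius_weight (n : ℕ) (hn : n ≠ 0) :
    (∑ d ∈ n.divisors, (|ArithmeticFunction.moebius d| : ℚ) * ((n : ℚ) / d)) / n.totient =
      ∏ q ∈ n.primeFactors, ((q : ℚ) + 1) / (q - 1) := by
  have hn' : (n : ℚ) ≠ 0 := by exact_mod_cast hn
  rw [sum_abs_moebius n hn, Nat.totient_eq_mul_prod_factors, mul_div_mul_left _ _ hn',
    ← Finset.prod_div_distrib]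
  refine Finset.prod_congr rfl fun q hq => ?_
  have hq2 : (2 : ℚ) ≤ q := by exact_mod_cast (Nat.prime_of_mem_primeFactors hq).two_le
  have hq0 : (q : ℚ) ≠ 0 := by positivity
  have hq1 : (q : ℚ) - 1 ≠ 0 := by linarith
  have hq3 : (1 : ℚ) - (q : ℚ)⁻¹ ≠ 0 := by
    rw [sub_ne_zero]
    intro h
    have := congrArg (fun x => (q : ℚ) * x) h
    simp only [mul_one, mul_inv_cancel₀ hq0] at this
    linarith
  rw [div_eq_div_iff hq3 hq1]
  field_simp

lemma prod_le_prod_of_dvd (n e : ℕ) (he : e ≠ 0) (h : n ∣ e) :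
    ∏ q ∈ n.primeFactors, ((q : ℚ) + 1) / (q - 1) ≤
      ∏ q ∈ e.primeFactors, ((q : ℚ) + 1) / (q - 1) := by
  have h1 : ∀ q ∈ e.primeFactors, (1 : ℚ) ≤ ((q : ℚ) + 1) / (q - 1) := by
    intro q hq
    have hq2 : (2 : ℚ) ≤ q := by exact_mod_cast (Nat.prime_of_mem_primeFactors hq).two_le
    rw [le_div_iff₀ (by linarith)]
    linarith
  rw [← Finset.prod_sdiff (Nat.primeFactors_mono h he)]
  have h2 : (1 : ℚ) ≤ ∏ q ∈ e.primeFactors \ n.primeFactors, ((q : ℚ) + 1) / (q - 1) :=
    Finset.prod_induction _ (fun x => 1 ≤ x) (fun a b ha hb => one_le_mul_of_one_le_of_one_le ha hb)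
      le_rfl fun q hq => h1 q (Finset.mem_sdiff.1 hq).1
  have h3 : (0 : ℚ) ≤ ∏ q ∈ n.primeFactors, ((q : ℚ) + 1) / (q - 1) :=
    Finset.prod_nonneg fun q hq => zero_le_one.trans (h1 q (Nat.primeFactors_mono h he hq))
  nlinarith

end Arith

variable {Γ : Type} [Group Γ] [Fintype Γ]

lemma zpowers_pow_eq (c : Γ) (i : ℕ) :
    Subgroup.zpowers (c ^ i) = Subgroup.zpowers c ↔ (orderOf c).gcd i = 1 := by
  constructor
  · intro h
    have h1 : orderOf (c ^ i) = orderOf c := by
      rw [← Nat.card_zpowers, h, Nat.card_zpowers]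
    rw [orderOf_pow] at h1
    have h0 : 0 < orderOf c := orderOf_pos c
    have h2 : 0 < (orderOf c).gcd i := Nat.gcd_pos_of_pos_left _ h0
    by_contra hne
    have h3 : 1 < (orderOf c).gcd i := by omega
    exact absurd h1 (Nat.div_lt_self h0 h3).ne
  · intro h
    apply Subgroup.eq_of_le_of_card_ge
    · rw [Subgroup.zpowers_le]
      exact Subgroup.pow_mem _ (Subgroup.mem_zpowers c) i
    · rw [Nat.card_zpowers, Nat.card_zpowers, orderOf_pow, h, Nat.div_one]

lemma mem_zpowers_pow (c : Γ) (i d : ℕ) (hd : d ∣ orderOf c) :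
    c ^ i ∈ Subgroup.zpowers (c ^ d) ↔ d ∣ i := by
  constructor
  · intro h
    rw [← mem_powers_iff_mem_zpowers] at h
    obtain ⟨k, hk⟩ := h
    simp only [← pow_mul] at hk
    rw [pow_eq_pow_iff_modEq] at hk
    have h1 : d * k ≡ i [MOD d] := hk.of_dvd hd
    have h2 : i ≡ 0 [MOD d] := h1.symm.trans (by
      rw [Nat.modEq_zero_iff_dvd]
      exact dvd_mul_right d k)
    exact (Nat.modEq_zero_iff_dvd).1 h2
  · rintro ⟨k, rfl⟩
    rw [pow_mul]
    exact Subgroup.pow_mem _ (Subgroup.mem_zpowers _) k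

lemma card_gen (x : Γ) :
    (Finset.univ.filter fun c : Γ => Subgroup.zpowers c = Subgroup.zpowers x).card =
      (orderOf x).totient := by
  rw [Nat.totient_eq_card_coprime]
  symm
  refine Finset.card_bij (fun i _ => x ^ i) ?_ ?_ ?_
  · intro i hi
    obtain ⟨-, hi2⟩ := Finset.mem_filter.1 hi
    exact Finset.mem_filter.2 ⟨Finset.mem_univ _, (zpowers_pow_eq x i).2 hi2⟩
  · intro i hi j hj h
    exact pow_injOn_Iio_orderOf (Finset.mem_range.1 (Finset.mem_filter.1 hi).1)
      (Finset.mem_range.1 (Finset.mem_filter.1 hj).1) h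
  · intro c hc
    have h1 := (Finset.mem_filter.1 hc).2
    have h2 : c ∈ Subgroup.zpowers x := h1 ▸ Subgroup.mem_zpowers c
    rw [← mem_powers_iff_mem_zpowers] at h2
    obtain ⟨i, rfl⟩ := h2
    refine ⟨i % orderOf x, ?_, pow_mod_orderOf x i⟩
    refine Finset.mem_filter.2 ⟨Finset.mem_range.2 (Nat.mod_lt _ (orderOf_pos x)), ?_⟩
    have h3 : (orderOf x).gcd (i % orderOf x) = 1 := by
      rw [← zpowers_pow_eq, pow_mod_orderOf]
      exact h1
    exact h3

/-- Moebius inversion over the divisors of the order. -/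
lemma moebius_mem (c y : Γ) :
    ∑ d ∈ (orderOf c).divisors, (if y ∈ Subgroup.zpowers (c ^ d) then
      ArithmeticFunction.moebius d else 0) =
      if Subgroup.zpowers y = Subgroup.zpowers c then 1 else 0 := by
  have h0 : orderOf c ≠ 0 := (orderOf_pos c).ne'
  by_cases hy : y ∈ Subgroup.zpowers c
  · rw [← mem_powers_iff_mem_zpowers] at hy
    obtain ⟨i, rfl⟩ := hy
    have h1 : ∑ d ∈ (orderOf c).divisors, (if c ^ i ∈ Subgroup.zpowers (c ^ d) then
        ArithmeticFunction.moebius d else 0) =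
        ∑ d ∈ ((orderOf c).gcd i).divisors, ArithmeticFunction.moebius d := by
      rw [← Finset.sum_filter]
      congr 1
      ext d
      simp only [Finset.mem_filter, Nat.mem_divisors]
      constructor
      · rintro ⟨⟨hd, _⟩, h⟩
        refine ⟨Nat.dvd_gcd hd ((mem_zpowers_pow c i d hd).1 h), ?_⟩
        exact (Nat.gcd_pos_of_pos_left _ (orderOf_pos c)).ne'
      · rintro ⟨hd, _⟩
        have hd1 : d ∣ orderOf c := hd.trans (Nat.gcd_dvd_left _ _)
        exact ⟨⟨hd1, h0⟩, (mem_zpowers_pow c i d hd1).2 (hd.trans (Nat.gcd_dvd_right _ _))⟩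
    simp only at h1 ⊢
    rw [h1, sum_moebius_divisors]
    simp only [zpowers_pow_eq c i]
  · rw [if_neg, Finset.sum_eq_zero]
    · intro d _
      rw [if_neg]
      intro h
      apply hy
      exact (Subgroup.zpowers_le.2 (Subgroup.pow_mem _ (Subgroup.mem_zpowers c) d)) h
    · intro h
      apply hy
      rw [← h]
      exact Subgroup.mem_zpowers y

/-- The coefficients of an explicit Artin relation. -/
noncomputable def kap (c : Γ) (H : Subgroup Γ) : ℚ :=
  ∑ d ∈ (orderOf c).divisors, if Subgroup.zpowers (c ^ d) = H then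
    (ArithmeticFunction.moebius d : ℚ) * ((orderOf c : ℚ) / d) / (orderOf c).totient else 0

omit [Fintype Γ] in
lemma sum_kap (c : Γ) (f : Subgroup Γ → ℚ) [Fintype (Subgroup Γ)] :
    ∑ H, kap c H * f H = ∑ d ∈ (orderOf c).divisors,
      (ArithmeticFunction.moebius d : ℚ) * ((orderOf c : ℚ) / d) / (orderOf c).totient *
        f (Subgroup.zpowers (c ^ d)) := by
  simp only [kap, Finset.sum_mul]
  rw [Finset.sum_comm]
  refine Finset.sum_congr rfl fun d _ => ?_
  rw [Finset.sum_eq_single (Subgroup.zpowers (c ^ d))]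
  · rw [if_pos rfl]
  · intro H _ hH
    rw [if_neg hH.symm, zero_mul]
  · intro h
    exact absurd (Finset.mem_univ _) h

lemma card_zpowers_pow (c : Γ) (d : ℕ) (hd : d ∣ orderOf c) :
    ((Nat.card (Subgroup.zpowers (c ^ d)) : ℕ) : ℚ) = (orderOf c : ℚ) / d := by
  have h0 : 0 < orderOf c := orderOf_pos c
  have hd0 : d ≠ 0 := fun h => by
    rw [h, zero_dvd_iff] at hd
    omega
  rw [Nat.card_zpowers, orderOf_pow_of_dvd hd0 hd, Nat.cast_div hd (by exact_mod_cast hd0)]

lemma phi_kap (c x : Γ) [Fintype (Subgroup Γ)] :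
    ∑ H, kap c H * (fixCount H x : ℚ) =
      (∑ g : Γ, if Subgroup.zpowers (g⁻¹ * x * g) = Subgroup.zpowers c then (1 : ℚ) else 0) /
        (orderOf c).totient := by
  rw [sum_kap c (fun H => (fixCount H x : ℚ))]
  have h1 : ∀ d ∈ (orderOf c).divisors,
      (ArithmeticFunction.moebius d : ℚ) * ((orderOf c : ℚ) / d) / (orderOf c).totient *
        (fixCount (Subgroup.zpowers (c ^ d)) x : ℚ) =
      (∑ g : Γ, if g⁻¹ * x * g ∈ Subgroup.zpowers (c ^ d) then
        (ArithmeticFunction.moebius d : ℚ) else 0) / (orderOf c).totient := by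
    intro d hd
    have hd' := Nat.dvd_of_mem_divisors hd
    have h2 := card_mul_fixCount (Subgroup.zpowers (c ^ d)) x
    have h3 : (Nat.card {g : Γ // g⁻¹ * x * g ∈ Subgroup.zpowers (c ^ d)} : ℚ) =
        ∑ g : Γ, if g⁻¹ * x * g ∈ Subgroup.zpowers (c ^ d) then (1 : ℚ) else 0 := by
      rw [Finset.sum_boole, Nat.card_eq_fintype_card, Fintype.card_subtype]
    have h4 : ((orderOf c : ℚ) / d) * (fixCount (Subgroup.zpowers (c ^ d)) x : ℚ) =
        ∑ g : Γ, if g⁻¹ * x * g ∈ Subgroup.zpowers (c ^ d) then (1 : ℚ) else 0 := by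
      rw [← card_zpowers_pow c d hd', ← h3, ← h2]
      push_cast
      ring
    have h5 : (∑ g : Γ, if g⁻¹ * x * g ∈ Subgroup.zpowers (c ^ d) then
        (ArithmeticFunction.moebius d : ℚ) else 0) = (ArithmeticFunction.moebius d : ℚ) *
        ∑ g : Γ, if g⁻¹ * x * g ∈ Subgroup.zpowers (c ^ d) then (1 : ℚ) else 0 := by
      rw [Finset.mul_sum]
      refine Finset.sum_congr rfl fun g _ => ?_
      split_ifs <;> simp
    rw [h5, ← h4]
    ring
  rw [Finset.sum_congr rfl h1, ← Finset.sum_div]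
  congr 1
  rw [Finset.sum_comm]
  refine Finset.sum_congr rfl fun g _ => ?_
  have h6 := congrArg (Int.cast : ℤ → ℚ) (moebius_mem c (g⁻¹ * x * g))
  push_cast at h6
  exact h6

omit [Fintype Γ] in
lemma orderOf_conj_inv (x g : Γ) : orderOf (g⁻¹ * x * g) = orderOf x := by
  have h : MulAut.conj g⁻¹ x = g⁻¹ * x * g := by
    rw [MulAut.conj_apply, inv_inv]
  rw [← h]
  exact MulEquiv.orderOf_eq (MulAut.conj g⁻¹) x

/-- The explicit Artin formula. -/
lemma artin_explicit (χ : Γ → ℚ) (h1 : ∀ x y, Subgroup.zpowers x = Subgroup.zpowers y → χ x = χ y)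
    (h2 : ∀ x g, χ (g⁻¹ * x * g) = χ x) (x : Γ) [Fintype (Subgroup Γ)] :
    ∑ H, ((Fintype.card Γ : ℚ)⁻¹ * ∑ c, χ c * kap c H) * (fixCount H x : ℚ) = χ x := by
  have hcard : (Fintype.card Γ : ℚ) ≠ 0 := by exact_mod_cast Fintype.card_ne_zero
  have e1 : ∑ H, ((Fintype.card Γ : ℚ)⁻¹ * ∑ c, χ c * kap c H) * (fixCount H x : ℚ) =
      (Fintype.card Γ : ℚ)⁻¹ * ∑ c, χ c * ∑ H, kap c H * (fixCount H x : ℚ) := by
    simp only [Finset.mul_sum, Finset.sum_mul]
    rw [Finset.sum_comm]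
    refine Finset.sum_congr rfl fun c _ => Finset.sum_congr rfl fun H _ => ?_
    ring
  rw [e1]
  simp only [phi_kap]
  have e2 : ∑ c : Γ, χ c * ((∑ g : Γ, if Subgroup.zpowers (g⁻¹ * x * g) = Subgroup.zpowers c
      then (1 : ℚ) else 0) / (orderOf c).totient) = ∑ g : Γ, χ x := by
    have e3 : ∀ c : Γ, χ c * ((∑ g : Γ, if Subgroup.zpowers (g⁻¹ * x * g) = Subgroup.zpowers c
        then (1 : ℚ) else 0) / (orderOf c).totient) =
        ∑ g : Γ, if Subgroup.zpowers c = Subgroup.zpowers (g⁻¹ * x * g) then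
          χ x / (orderOf x).totient else 0 := by
      intro c
      rw [Finset.sum_div, Finset.mul_sum]
      refine Finset.sum_congr rfl fun g _ => ?_
      by_cases h : Subgroup.zpowers c = Subgroup.zpowers (g⁻¹ * x * g)
      · rw [if_pos h, if_pos h.symm, h1 c _ h, h2]
        have h3 : orderOf c = orderOf x := by
          rw [← Nat.card_zpowers c, h, Nat.card_zpowers]
          exact orderOf_conj_inv x g
        rw [h3]
        ring
      · rw [if_neg h, if_neg (fun h' => h h'.symm)]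
        simp
    rw [Finset.sum_congr rfl fun c _ => e3 c, Finset.sum_comm]
    refine Finset.sum_congr rfl fun g _ => ?_
    rw [← Finset.sum_filter, Finset.sum_const, card_gen, nsmul_eq_mul]
    rw [orderOf_conj_inv x g]
    have h5 : ((orderOf x).totient : ℚ) ≠ 0 := by
      exact_mod_cast (Nat.totient_pos.2 (orderOf_pos x)).ne'
    field_simp
  rw [e2, Finset.sum_const, Finset.card_univ, nsmul_eq_mul, inv_mul_cancel_left₀ hcard]

omit [Fintype Γ] in
/-- Rational additivity from integral additivity. -/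
lemma additive_rat (D : Subgroup Γ → ℤ) [Fintype (Subgroup Γ)]
    (hadd : ∀ a : Subgroup Γ → ℤ, (∀ x, ∑ H, (a H : ℚ) * (fixCount H x : ℚ) = 0) →
      ∑ H, a H * D H = 0) (f : Subgroup Γ → ℚ)
    (hf : ∀ x, ∑ H, f H * (fixCount H x : ℚ) = 0) : ∑ H, f H * (D H : ℚ) = 0 := by
  let N : ℕ := ∏ H, (f H).den
  have hN : (N : ℚ) ≠ 0 := by
    have : N ≠ 0 := Finset.prod_ne_zero_iff.2 fun H _ => (f H).den_nz
    exact_mod_cast this
  let a : Subgroup Γ → ℤ := fun H => (f H).num * (∏ H' ∈ Finset.univ.erase H, (f H').den : ℕ)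
  have ha : ∀ H, (a H : ℚ) = N * f H := by
    intro H
    have h1 : N = (f H).den * ∏ H' ∈ Finset.univ.erase H, (f H').den :=
      (Finset.mul_prod_erase _ _ (Finset.mem_univ H)).symm
    rw [h1]
    have h2 : (f H) * ((f H).den : ℚ) = (f H).num := Rat.mul_den_eq_num _
    simp only [a]
    push_cast
    rw [← h2]
    ring
  have h0 := hadd a (fun x => by
    have : ∑ H, (a H : ℚ) * (fixCount H x : ℚ) = N * ∑ H, f H * (fixCount H x : ℚ) := by
      rw [Finset.mul_sum]
      refine Finset.sum_congr rfl fun H _ => ?_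
      rw [ha]
      ring
    rw [this, hf x, mul_zero])
  have h3 : (N : ℚ) * ∑ H, f H * (D H : ℚ) = 0 := by
    rw [Finset.mul_sum]
    have h4 : ((∑ H, a H * D H : ℤ) : ℚ) = 0 := by rw [h0, Int.cast_zero]
    rw [← h4]
    push_cast
    refine Finset.sum_congr rfl fun H _ => ?_
    rw [ha]
    ring
  exact (mul_eq_zero.1 h3).resolve_left hN

/-- Bessel's inequality for functions on a finite set. -/
lemma bessel {X J : Type} [Fintype X] [Fintype J] (δ : X → ℚ) (χ : J → X → ℚ)
    (horth : ∀ i j, i ≠ j → ∑ x, χ i x * χ j x = 0) :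
    ∑ j, (∑ x, χ j x * δ x) ^ 2 / ∑ x, χ j x ^ 2 ≤ ∑ x, δ x ^ 2 := by
  let q : J → ℚ := fun j => ∑ x, χ j x ^ 2
  let s : J → ℚ := fun j => ∑ x, χ j x * δ x
  let t : J → ℚ := fun j => s j / q j
  have hst : ∀ j, t j * s j = s j ^ 2 / q j := fun j => by
    simp only [t]
    ring
  have htt : ∀ j, t j * (t j * q j) = s j ^ 2 / q j := by
    intro j
    by_cases hq : q j = 0
    · simp [t, hq]
    · simp only [t]
      field_simp
  have h0 : 0 ≤ ∑ x, (δ x - ∑ j, t j * χ j x) ^ 2 := Finset.sum_nonneg fun x _ => sq_nonneg _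
  have h1 : ∑ x, (δ x - ∑ j, t j * χ j x) ^ 2 = ∑ x, δ x ^ 2 - 2 * ∑ j, t j * s j +
      ∑ j, t j * (t j * q j) := by
    have h2 : ∀ x, (δ x - ∑ j, t j * χ j x) ^ 2 = δ x ^ 2 - 2 * ∑ j, t j * (χ j x * δ x) +
        ∑ i, ∑ j, t i * t j * (χ i x * χ j x) := by
      intro x
      have h3 : ∑ j, t j * (χ j x * δ x) = (∑ j, t j * χ j x) * δ x := by
        rw [Finset.sum_mul]
        refine Finset.sum_congr rfl fun j _ => ?_
        ring
      have h4 : ∑ i, ∑ j, t i * t j * (χ i x * χ j x) =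
          (∑ j, t j * χ j x) * (∑ j, t j * χ j x) := by
        rw [Finset.sum_mul_sum]
        refine Finset.sum_congr rfl fun i _ => Finset.sum_congr rfl fun j _ => ?_
        ring
      rw [h3, h4]
      ring
    rw [Finset.sum_congr rfl fun x _ => h2 x, Finset.sum_add_distrib, Finset.sum_sub_distrib,
      ← Finset.mul_sum]
    congr 1
    · congr 2
      rw [Finset.sum_comm]
      refine Finset.sum_congr rfl fun j _ => ?_
      rw [← Finset.mul_sum]
    · rw [Finset.sum_comm]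
      refine Finset.sum_congr rfl fun i _ => ?_
      rw [Finset.sum_comm, Finset.sum_eq_single i]
      · rw [← Finset.mul_sum, mul_assoc]
        congr 2
        refine Finset.sum_congr rfl fun x _ => ?_
        ring
      · intro j _ hj
        rw [← Finset.mul_sum, horth i j hj.symm, mul_zero]
      · intro h
        exact absurd (Finset.mem_univ _) h
  rw [h1, Finset.sum_congr rfl fun j _ => hst j, Finset.sum_congr rfl fun j _ => htt j] at h0
  change ∑ j, s j ^ 2 / q j ≤ _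
  linarith

/-- The Bessel inequality for additive functions on the subgroups. -/
theorem parseval {J : Type} [Fintype J] [Fintype (Subgroup Γ)] (D : Subgroup Γ → ℤ)
    (hadd : ∀ a : Subgroup Γ → ℤ, (∀ x, ∑ H, (a H : ℚ) * (fixCount H x : ℚ) = 0) →
      ∑ H, a H * D H = 0) (C : ℚ) (hC : ∀ H : Subgroup Γ, IsCyclic H → |(D H : ℚ)| ≤ C)
    (χ : J → Γ → ℚ) (n : J → ℕ) (hn : ∀ j, 0 < n j) (a : J → Subgroup Γ → ℤ)
    (ha : ∀ j x, ∑ H, (a j H : ℚ) * (fixCount H x : ℚ) = n j * χ j x)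
    (horth : ∀ i j, i ≠ j → ∑ x, χ i x * χ j x = 0) :
    ∑ j, ((∑ H, a j H * D H : ℤ) : ℚ) ^ 2 * Fintype.card Γ / ((n j : ℚ) ^ 2 * ∑ x, χ j x ^ 2) ≤
      (C * ∏ q ∈ (Monoid.exponent Γ).primeFactors, ((q : ℚ) + 1) / (q - 1)) ^ 2 := by
  have hcard : (Fintype.card Γ : ℚ) ≠ 0 := by exact_mod_cast Fintype.card_ne_zero
  have hcard0 : (0 : ℚ) < Fintype.card Γ := by exact_mod_cast Fintype.card_pos
  have hn' : ∀ j, (n j : ℚ) ≠ 0 := fun j => by exact_mod_cast (hn j).ne'
  have hz : ∀ j x y, Subgroup.zpowers x = Subgroup.zpowers y → χ j x = χ j y := by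
    intro j x y h
    have h1 : (n j : ℚ) * χ j x = n j * χ j y := by
      rw [← ha j x, ← ha j y]
      refine Finset.sum_congr rfl fun H _ => ?_
      rw [fixCount_zpowers H h]
    exact mul_left_cancel₀ (hn' j) h1
  have hcj : ∀ j x g, χ j (g⁻¹ * x * g) = χ j x := by
    intro j x g
    have h1 : (n j : ℚ) * χ j (g⁻¹ * x * g) = n j * χ j x := by
      rw [← ha j x, ← ha j _]
      refine Finset.sum_congr rfl fun H _ => ?_
      rw [fixCount_conj H]
    exact mul_left_cancel₀ (hn' j) h1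
  let δ : Γ → ℚ := fun c => ∑ H, kap c H * (D H : ℚ)
  -- the coefficients
  have hcoef : ∀ j, (n j : ℚ)⁻¹ * ((∑ H, a j H * D H : ℤ) : ℚ) =
      (Fintype.card Γ : ℚ)⁻¹ * ∑ c, χ j c * δ c := by
    intro j
    have h1 := additive_rat D hadd (fun H => (n j : ℚ)⁻¹ * (a j H : ℚ) -
      (Fintype.card Γ : ℚ)⁻¹ * ∑ c, χ j c * kap c H) (fun x => by
        simp only [sub_mul, Finset.sum_sub_distrib]
        rw [artin_explicit (χ j) (hz j) (hcj j) x]
        simp only [mul_assoc]
        rw [← Finset.mul_sum, ha j x, inv_mul_cancel_left₀ (hn' j), sub_self])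
    simp only [sub_mul, Finset.sum_sub_distrib] at h1
    have h2 : ∑ H, (n j : ℚ)⁻¹ * (a j H : ℚ) * (D H : ℚ) =
        (n j : ℚ)⁻¹ * ((∑ H, a j H * D H : ℤ) : ℚ) := by
      push_cast
      rw [Finset.mul_sum]
      refine Finset.sum_congr rfl fun H _ => ?_
      ring
    have h3 : ∑ H, (Fintype.card Γ : ℚ)⁻¹ * (∑ c, χ j c * kap c H) * (D H : ℚ) =
        (Fintype.card Γ : ℚ)⁻¹ * ∑ c, χ j c * δ c := by
      simp only [δ, Finset.mul_sum, Finset.sum_mul]
      rw [Finset.sum_comm]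
      refine Finset.sum_congr rfl fun c _ => Finset.sum_congr rfl fun H _ => ?_
      ring
    rw [h2, h3] at h1
    linarith
  -- the bound
  have hC0 : 0 ≤ C := (abs_nonneg _).trans (hC ⊥ inferInstance)
  set W : ℚ := ∏ q ∈ (Monoid.exponent Γ).primeFactors, ((q : ℚ) + 1) / (q - 1) with hW
  have hδ : ∀ c, |δ c| ≤ C * W := by
    intro c
    have h0 : orderOf c ≠ 0 := (orderOf_pos c).ne'
    have htot : (0 : ℚ) < (orderOf c).totient := by
      exact_mod_cast Nat.totient_pos.2 (orderOf_pos c)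
    simp only [δ]
    rw [sum_kap c (fun H => (D H : ℚ))]
    refine (Finset.abs_sum_le_sum_abs _ _).trans ?_
    have h1 : ∀ d ∈ (orderOf c).divisors,
        |(ArithmeticFunction.moebius d : ℚ) * ((orderOf c : ℚ) / d) / (orderOf c).totient *
          (D (Subgroup.zpowers (c ^ d)) : ℚ)| ≤
        ((|ArithmeticFunction.moebius d| : ℚ) * ((orderOf c : ℚ) / d)) / (orderOf c).totient * C := by
      intro d _
      rw [abs_mul, abs_div, abs_mul, abs_div, Nat.abs_cast, Nat.abs_cast, Nat.abs_cast]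
      refine mul_le_mul_of_nonneg_left (hC _ inferInstance) ?_
      positivity
    refine (Finset.sum_le_sum h1).trans ?_
    rw [← Finset.sum_mul, ← Finset.sum_div, moebius_weight _ h0, mul_comm]
    refine mul_le_mul_of_nonneg_left ?_ hC0
    exact prod_le_prod_of_dvd _ _ (Monoid.exponent_ne_zero_of_finite) (Monoid.order_dvd_exponent c)
  have hδ2 : ∑ c, δ c ^ 2 ≤ Fintype.card Γ * (C * W) ^ 2 := by
    have h1 : ∀ c ∈ (Finset.univ : Finset Γ), δ c ^ 2 ≤ (C * W) ^ 2 := by
      intro c _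
      rw [← sq_abs]
      exact pow_le_pow_left₀ (abs_nonneg _) (hδ c) 2
    have h2 := Finset.sum_le_card_nsmul Finset.univ (fun c => δ c ^ 2) _ h1
    rwa [Finset.card_univ, nsmul_eq_mul] at h2
  have hB := bessel δ χ horth
  have hterm : ∀ j, ((∑ H, a j H * D H : ℤ) : ℚ) ^ 2 * Fintype.card Γ /
      ((n j : ℚ) ^ 2 * ∑ x, χ j x ^ 2) =
      (Fintype.card Γ : ℚ)⁻¹ * ((∑ x, χ j x * δ x) ^ 2 / ∑ x, χ j x ^ 2) := by
    intro j
    have h1 : ((∑ H, a j H * D H : ℤ) : ℚ) =
        n j * ((Fintype.card Γ : ℚ)⁻¹ * ∑ c, χ j c * δ c) := by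
      rw [← hcoef j, mul_inv_cancel_left₀ (hn' j)]
    rw [h1]
    have hnj := hn' j
    field_simp
  rw [Finset.sum_congr rfl fun j _ => hterm j, ← Finset.mul_sum]
  calc (Fintype.card Γ : ℚ)⁻¹ * ∑ j, (∑ x, χ j x * δ x) ^ 2 / ∑ x, χ j x ^ 2
      ≤ (Fintype.card Γ : ℚ)⁻¹ * (Fintype.card Γ * (C * W) ^ 2) := by
        refine mul_le_mul_of_nonneg_left (hB.trans hδ2) (inv_nonneg.2 hcard0.le)
    _ = (C * W) ^ 2 := by rw [inv_mul_cancel_left₀ hcard]

end Parseval

end Pool.BK
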