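import Pool.Agent.BKT.LocalGen
import Pool.Agent.Helper79.BKH.RelZero

/-!
One-sided inequalities for a positively dependent family of twists imply the order of vanishing
formula for them, given the formula over the totally complex, locally trivial fields.
-/

open scoped Pointwise NumberField
open Polynomial IsDedekindDomain

namespace Pool.BK

namespace HalfLocal

/-- all the terms vanish if they have the same sign and the positive combination vanishes -/
theorem all_zero {J : Type} [Fintype J] (c : J → ℤ) (e : J → ℤ) (he : ∀ j, e j = 1 ∨ e j = -1)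
    (hc : ∀ j, 0 < e j * c j) (x : J → ℚ)
    (hx : ∀ j, (e j : ℚ) * x j ≤ 0) (hs : ∑ j, (c j : ℚ) * x j = 0) (j : J) :
    x j = 0 := by
  have hee : ∀ i, (e i : ℚ) * (e i : ℚ) = 1 := by
    intro i
    rcases he i with h | h <;> rw [h] <;> norm_num
  have h1 : ∑ j, ((e j : ℚ) * (c j : ℚ)) * ((e j : ℚ) * x j) = 0 := by
    rw [← hs]
    refine Finset.sum_congr rfl fun i _ => ?_
    linear_combination (c i : ℚ) * x i * hee i
  have h2 : ∀ i ∈ Finset.univ, ((e i : ℚ) * (c i : ℚ)) * ((e i : ℚ) * x i) ≤ 0 := fun i _ =>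
    mul_nonpos_of_nonneg_of_nonpos (by exact_mod_cast (hc i).le) (hx i)
  have h3 := (Finset.sum_eq_zero_iff_of_nonpos h2).1 h1 j (Finset.mem_univ j)
  have h4 : (e j : ℚ) * (c j : ℚ) ≠ 0 := by exact_mod_cast (hc j).ne'
  have h5 : (e j : ℚ) ≠ 0 := by
    intro h
    have := hee j
    rw [h, mul_zero] at this
    exact zero_ne_one this
  exact (mul_eq_zero.1 ((mul_eq_zero.1 h3).resolve_left h4)).resolve_left h5

end HalfLocal

section Main

variable (K : Type) [Field K] [NumberField K] (Ω : Type) [Field Ω] [Algebra K Ω] [IsAlgClosed Ω]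
  [Algebra.IsAlgebraic K Ω]

open ReductionLocal in
theorem half_local (V : LSystem (Ω ≃ₐ[K] Ω))
    (B : ∀ (p : ℕ) [Fact p.Prime], PeriodData (Ω ≃ₐ[K] Ω) (𝓞 Ω) p)
    (F : IntermediateField K Ω) [NumberField F] [Normal K F]
    (F₁ : IntermediateField K Ω) [NumberField F₁]
    (T : Set (HeightOneSpectrum (𝓞 K))) (hT : T.Finite) (N : ℕ) (hN : 0 < N)
    (X : Set (IntermediateField K Ω))
    (hX : ∀ n : ℕ, 0 < n → {L | L ∈ X ∧ Module.finrank K L = n}.Finite)
    (h : ∀ (L : IntermediateField K Ω) [NumberField L], NumberField.IsTotallyComplex L →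
      LocTriv F T L → L ∉ X → N ∣ Module.finrank K L →
      (∃ (W : Subgroup (Ω ≃ₐ[K] Ω)) (_ : W.Normal), IsOpen (W : Set (Ω ≃ₐ[K] Ω)) ∧
        W ≤ F₁.fixingSubgroup ∧ W ≤ L.fixingSubgroup ∧
        IsCyclic (L.fixingSubgroup.map (QuotientGroup.mk' W))) →
      ∃ m : ℕ, 0 < m ∧ BKInd K L Ω V B m)
    {J : Type} [Fintype J] (r' : J → ℕ)
    (θ' : ∀ j, (Ω ≃ₐ[K] Ω) →* Matrix (Fin (r' j)) (Fin (r' j)) ℚ)
    (hθ' : ∀ j, IsOpen ((θ' j).ker : Set (Ω ≃ₐ[K] Ω))) (e : J → ℤ)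
    (he : ∀ j, e j = 1 ∨ e j = -1)
    (h' : ∀ j, ∃ (m : ℕ) (k : ℤ), 0 < m ∧ BKval K Ω (V.twist (θ' j) (hθ' j)) m k ∧
      ∀ (p : ℕ) [Fact p.Prime], Module.Finite ℚ_[p] (H1f (tensorRep (V.rep p) (θ' j)) (B p)) →
        e j * k ≤ e j * (m * ((Module.finrank ℚ_[p] (H1f (tensorRep (V.rep p) (θ' j)) (B p)) : ℤ) -
          (Pool.BK.h0 (tensorRep (V.rep p) (θ' j)) : ℤ))))
    (c : J → ℚ) (hcpos : ∀ j, 0 < e j * c j)
    (ha : ∀ σ : Ω ≃ₐ[K] Ω, IsConj σ ∨ IsLoc F T σ → ∑ j, c j * (θ' j σ).trace = 0) :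
    ∀ j, ∃ m : ℕ, 0 < m ∧ BKpow K Ω (V.twist (θ' j) (hθ' j)) B m := by
  classical
  have hgal := H1Relation.isGalois (K := K) (Ω := Ω)
  obtain ⟨n, c', hn, hc'⟩ := LocalGen.exists_denom c
  choose m' hm' k E' a' hE' ha' using fun j => exists_permMultiple K Ω (θ' j) (hθ' j)
  have hopenF : ∀ L : IntermediateField K Ω, NumberField L →
      IsOpen (L.fixingSubgroup : Set (Ω ≃ₐ[K] Ω)) := by
    intro L hL
    have : FiniteDimensional K L := H1Relation.finite_of_numberField L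
    exact L.fixingSubgroup_isOpen
  let M : ℕ := ∏ j, m' j
  let M' : J → ℕ := fun j => ∏ i ∈ Finset.univ.erase j, m' i
  have hM' : ∀ j, m' j * M' j = M := fun j =>
    Finset.mul_prod_erase _ _ (Finset.mem_univ j)
  have hM0 : 0 < M := Finset.prod_pos fun j _ => hm' j
  -- all the fields
  let Y : (Σ j, Fin (k j)) → IntermediateField K Ω := fun y => E' y.1 y.2
  have hY : ∀ y, NumberField (Y y) := by
    rintro ⟨j, l⟩
    exact hE' j l
  let co : (Σ j, Fin (k j)) → ℤ := fun y => c' y.1 * (M' y.1 : ℤ) * a' y.1 y.2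
  have hco : ∀ g, ((∑ y, co y * (fixCount (Y y).fixingSubgroup g : ℤ) : ℤ) : ℚ) =
      (M : ℚ) * ∑ j, (c' j : ℚ) * (θ' j g).trace := by
    intro g
    rw [Fintype.sum_sigma]
    simp only [co, Y]
    push_cast
    have e2 : ∀ j, ∑ l, (c' j : ℚ) * (M' j : ℚ) * (a' j l : ℚ) *
        (fixCount (E' j l).fixingSubgroup g : ℚ) =
        (M : ℚ) * ((c' j : ℚ) * (θ' j g).trace) := by
      intro j
      have e3 : ∑ l, (c' j : ℚ) * (M' j : ℚ) * (a' j l : ℚ) *
        (fixCount (E' j l).fixingSubgroup g : ℚ) = (c' j : ℚ) * (M' j : ℚ) *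
          ∑ l, (a' j l : ℚ) * (fixCount (E' j l).fixingSubgroup g : ℚ) := by
        rw [Finset.mul_sum]
        exact Finset.sum_congr rfl fun l _ => by ring
      rw [e3, ha' j g, ← hM' j]
      push_cast
      ring
    rw [Finset.sum_congr rfl fun j _ => e2 j, ← Finset.mul_sum]
  -- a large field
  obtain ⟨U, hU1, hU2, hU3, hU4⟩ := H1Relation.exists_normal Y
  have hUo : IsOpen ((U ⊓ ⨅ j, (θ' j).ker : Subgroup (Ω ≃ₐ[K] Ω)) :
      Set (Ω ≃ₐ[K] Ω)) := by
    rw [Subgroup.coe_inf, Subgroup.coe_iInf]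
    exact hU3.inter (isOpen_iInter_of_finite hθ')
  obtain ⟨hL₀, hL₀fix⟩ := fixedField_of_isOpen (U ⊓ ⨅ j, (θ' j).ker) hUo
  obtain ⟨L₁, hL₁, g1, g2, g3, g4, g5⟩ := exists_large
    (IntermediateField.fixedField (U ⊓ ⨅ j, (θ' j).ker)) F F₁ N hN
  -- Artin's formula
  let X' : Set (Subgroup (Ω ≃ₐ[K] Ω)) := {U | IntermediateField.fixedField U ∈ X}
  have hX' : ∀ n : ℕ, 0 < n →
      {U | U ∈ X' ∧ IsOpen (U : Set (Ω ≃ₐ[K] Ω)) ∧ U.index = n}.Finite := by
    intro n hn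
    refine Set.Finite.of_finite_image (f := fun U : Subgroup (Ω ≃ₐ[K] Ω) =>
      IntermediateField.fixedField U) ((hX n hn).subset ?_) ?_
    · rintro _ ⟨U, ⟨hUX, hUo, hUn⟩, rfl⟩
      exact ⟨hUX, by rw [Almost.finrank_fixedField U hUo, hUn]⟩
    · rintro U ⟨-, hUo, -⟩ U' ⟨-, hUo', -⟩ hUU
      have hUU' : IntermediateField.fixedField U = IntermediateField.fixedField U' := hUU
      rw [← (Reduction.open_field U hUo).2, ← (Reduction.open_field U' hUo').2, hUU']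
  obtain ⟨m₂, κ, _, C, b, W, hm₂, hWn, hWo, hWU, hWX, hC, hrel⟩ := artin_avoid K Ω
    (fun U => ∃ L' : IntermediateField K Ω, NumberField L' ∧
      NumberField.IsTotallyComplex L' ∧ LocTriv F T L' ∧ N ∣ Module.finrank K L' ∧
          U ≤ L'.fixingSubgroup)
    (fun H H' hHH' ⟨L', h1, h2, h3, h4, h5⟩ => ⟨L', h1, h2, h3, h4, hHH'.trans h5⟩)
    (fun y => (Y y).fixingSubgroup) (fun y => hopenF _ (hY y)) co
    (by
      intro g hg
      have hbad : IsConj g ∨ IsLoc F T g := by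
        refine BadLocalFine.core (fun σ Q Q' => two_primes σ Q Q') F T hT g fun L₀ _ h0 ⟨h1, h2⟩ => ?_
        obtain ⟨L', hL', hle, hgL', hN'⟩ := ReductionLocal.exists_big_dvd L₀ g h0 N hN
        exact hg L'.fixingSubgroup (hopenF L' hL') hgL' ⟨L', hL', tc_of_le hle h1,
          locTriv_of_le hle h2, hN', le_rfl⟩
      have h1 := hco g
      have h2 : ∑ j, (c' j : ℚ) * (θ' j g).trace = 0 := by
        have h3 := ha g hbad
        have h4 : ∑ j, (c' j : ℚ) * (θ' j g).trace = (n : ℚ) * ∑ j, c j * (θ' j g).trace := by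
          rw [Finset.mul_sum]
          refine Finset.sum_congr rfl fun j _ => ?_
          rw [← hc' j]
          ring
        rw [h4, h3, mul_zero]
      rw [h2, mul_zero] at h1
      exact_mod_cast h1) X' hX' L₁.fixingSubgroup (hopenF L₁ hL₁)
  -- the field of `W`
  obtain ⟨hM₀, hM₀fix⟩ := fixedField_of_isOpen W hWo
  have hle₁ : L₁ ≤ IntermediateField.fixedField W := (IntermediateField.le_iff_le _ _).2 hWU
  have hWF₁ : W ≤ F₁.fixingSubgroup := hWU.trans (IntermediateField.fixingSubgroup_antitone g3)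
  have hbk₀ : ∃ m : ℕ, 0 < m ∧ BKInd K (IntermediateField.fixedField W) Ω V B m := by
    refine h _ (tc_of_le hle₁ g4) (locTriv_of_le_right T (g2.trans hle₁)) hWX
      (g5.trans (finrank_dvd hle₁)) ⟨W, hWn, hWo, hWF₁, hM₀fix.ge, ?_⟩
    have h1 : (IntermediateField.fixedField W).fixingSubgroup.map (QuotientGroup.mk' W) = ⊥ := by
      rw [Subgroup.map_eq_bot_iff, QuotientGroup.ker_mk', hM₀fix]
    rw [h1]
    infer_instance
  have hWker : W ≤ U ⊓ ⨅ j, (θ' j).ker := by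
    rw [← hL₀fix]
    exact hWU.trans (IntermediateField.fixingSubgroup_antitone g1)
  -- the fields of the `C j`
  have hCo : ∀ j, IsOpen (C j : Set (Ω ≃ₐ[K] Ω)) := fun j => Subgroup.isOpen_mono (hC j).1 hWo
  have hF : ∀ j, NumberField (IntermediateField.fixedField (C j)) := fun j =>
    (fixedField_of_isOpen (C j) (hCo j)).1
  have hFix : ∀ j, (IntermediateField.fixedField (C j)).fixingSubgroup = C j := fun j =>
    (fixedField_of_isOpen (C j) (hCo j)).2
  have hFbk : ∀ j, ∃ m : ℕ, 0 < m ∧ BKInd K (IntermediateField.fixedField (C j)) Ω V B m := by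
    intro j
    obtain ⟨hWC, ⟨L', _, h2, h3, h4, h6⟩, hCX, g, hg⟩ := hC j
    have hle : L' ≤ IntermediateField.fixedField (C j) := (IntermediateField.le_iff_le _ _).2 h6
    refine h _ (tc_of_le hle h2) (locTriv_of_le hle h3) hCX (h4.trans (finrank_dvd hle))
      ⟨W, hWn, hWo, hWF₁, by rw [hFix j]; exact hWC, ?_⟩
    rw [hFix j, hg, Subgroup.map_sup, MonoidHom.map_zpowers]
    have h7 : W.map (QuotientGroup.mk' W) = ⊥ := by
      rw [Subgroup.map_eq_bot_iff, QuotientGroup.ker_mk']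
    rw [h7, sup_bot_eq]
    infer_instance
  have hM₀n : (IntermediateField.fixedField W).fixingSubgroup.Normal := by
    rw [hM₀fix]; exact hWn
  choose n₂ k₂ hn₂ hval hineq using h'
  have key := fun (p : ℕ) [Fact p.Prime] => rel_zero K Ω V B r' θ' hθ'
    (fun j => IntermediateField.fixedField (C j)) (hE := hF) (fun j => -b j)
    (fun j => (m₂ : ℤ) * M * c' j) (fun g => by
      have h1 := hrel g
      have h2 : ((m₂ : ℤ) * ∑ y, co y * (fixCount (Y y).fixingSubgroup g : ℤ) : ℚ) =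
          ∑ j, (b j : ℚ) * (fixCount (C j) g : ℚ) := by exact_mod_cast h1
      have h3 := hco g
      push_cast at h2 h3
      rw [h3] at h2
      have h4 : ∑ j, ((-b j : ℤ) : ℚ) *
          (fixCount (IntermediateField.fixedField (C j)).fixingSubgroup g : ℚ) =
          -∑ j, (b j : ℚ) * (fixCount (C j) g : ℚ) := by
        rw [← Finset.sum_neg_distrib]
        refine Finset.sum_congr rfl fun j _ => ?_
        rw [hFix j]
        push_cast
        ring
      have h5 : ∑ j, (((m₂ : ℤ) * M * c' j : ℤ) : ℚ) * (θ' j g).trace =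
          (m₂ : ℚ) * ((M : ℚ) * ∑ j, (c' j : ℚ) * (θ' j g).trace) := by
        rw [← mul_assoc, Finset.mul_sum]
        refine Finset.sum_congr rfl fun j _ => ?_
        push_cast
        ring
      rw [h4, ← h2, h5]
      ring) m' hm' k E' a' hE' ha'
    (IntermediateField.fixedField W) hM₀n
    (fun j => by rw [hM₀fix]; exact (hWker.trans inf_le_right).trans (iInf_le _ j))
    (fun j => by rw [hM₀fix, hFix j]; exact (hC j).1)
    (fun j l => by
      rw [hM₀fix]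
      exact (hWker.trans inf_le_left).trans (hU4 ⟨j, l⟩))
    (fun p _ => by
      obtain ⟨m, hm, P, hP, σ₀, U, Λ, hU, hσU, hUt, hΛ, hprod, hord⟩ := hbk₀
      exact (hord p).1) hFbk n₂ hn₂ k₂ hval p
  have hcpos' : ∀ j, 0 < e j * ((m₂ : ℤ) * M * c' j) := by
    intro j
    have h1 : (0 : ℚ) < ((e j * c' j : ℤ) : ℚ) := by
      push_cast
      rw [← hc' j]
      have h6 : (0 : ℚ) < (n : ℚ) * ((e j : ℚ) * c j) :=
        mul_pos (by exact_mod_cast hn) (hcpos j)
      linarith [h6]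
    have h2 : 0 < e j * c' j := by exact_mod_cast h1
    have h3 : (0 : ℤ) < m₂ := by exact_mod_cast hm₂
    have h4 : (0 : ℤ) < M := by exact_mod_cast hM0
    have h5 : 0 < (m₂ : ℤ) * M * (e j * c' j) := by positivity
    linarith [h5]
  intro j
  obtain ⟨P, hP, σ, U, Λ, hUo, hUσ, hUr, hmer, hprod, hord⟩ := hval j
  refine ⟨n₂ j, hn₂ j, P, hP, σ, U, Λ, hUo, hUσ, hUr, hmer, hprod, fun p _ => ?_⟩
  obtain ⟨hf, hsum⟩ := key p
  change Module.Finite ℚ_[p] (H1f (tensorRep (V.rep p) (θ' j)) (B p)) ∧ meromorphicOrderAt Λ 0 =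
    ((((n₂ j : ℕ) : ℤ) * ((Module.finrank ℚ_[p] (H1f (tensorRep (V.rep p) (θ' j)) (B p)) : ℤ) -
      (Pool.BK.h0 (tensorRep (V.rep p) (θ' j)) : ℤ)) : ℤ) : WithTop ℤ)
  refine ⟨hf j, ?_⟩
  have hz := HalfLocal.all_zero _ e he hcpos' _ (fun i => ?_) hsum j
  · rw [hord]
    congr 1
    have hx : (n₂ j : ℚ) ≠ 0 := by exact_mod_cast (hn₂ j).ne'
    have h1 : (k₂ j : ℚ) / (n₂ j : ℚ) =
      (((Module.finrank ℚ_[p] (H1f (tensorRep (V.rep p) (θ' j)) (B p)) : ℤ) -
        (Pool.BK.h0 (tensorRep (V.rep p) (θ' j)) : ℤ) : ℤ) : ℚ) := sub_eq_zero.1 hz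
    rw [div_eq_iff hx] at h1
    have h2 : (k₂ j : ℚ) = (((n₂ j : ℤ) *
      ((Module.finrank ℚ_[p] (H1f (tensorRep (V.rep p) (θ' j)) (B p)) : ℤ) -
        (Pool.BK.h0 (tensorRep (V.rep p) (θ' j)) : ℤ)) : ℤ) : ℚ) := by
      rw [h1]
      push_cast
      ring
    exact_mod_cast h2
  · have hx : (0 : ℚ) < (n₂ i : ℚ) := by exact_mod_cast hn₂ i
    have h1 := hineq i p (hf i)
    have h2 : ((e i * k₂ i : ℤ) : ℚ) ≤ ((e i * ((n₂ i : ℕ) * ((Module.finrank ℚ_[p]
      (H1f (tensorRep (V.rep p) (θ' i)) (B p)) : ℤ) -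
        (Pool.BK.h0 (tensorRep (V.rep p) (θ' i)) : ℤ))) : ℤ) : ℚ) := by exact_mod_cast h1
    have h3 : (e i : ℚ) * ((k₂ i : ℚ) / (n₂ i : ℚ) -
      (((Module.finrank ℚ_[p] (H1f (tensorRep (V.rep p) (θ' i)) (B p)) : ℤ) -
        (Pool.BK.h0 (tensorRep (V.rep p) (θ' i)) : ℤ) : ℤ) : ℚ)) =
      (((e i * k₂ i : ℤ) : ℚ) - ((e i * ((n₂ i : ℕ) * ((Module.finrank ℚ_[p]
      (H1f (tensorRep (V.rep p) (θ' i)) (B p)) : ℤ) -
        (Pool.BK.h0 (tensorRep (V.rep p) (θ' i)) : ℤ))) : ℤ) : ℚ)) / (n₂ i : ℚ) := by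
      push_cast
      field_simp
    rw [h3]
    exact div_nonpos_of_nonpos_of_nonneg (by linarith) hx.le

end Main

end Pool.BK
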